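import Pool.Agent.N770.CP.Core2

/-!
# Two-transitive actions with signs: the group theory

`G` is a finite group with a central involution `c`, acting on `X`; `c` has no fixed points.
-/

set_option autoImplicit false

open scoped Classical

namespace Pool.Agent.V7H4.CT

open Pool.Agent.Q11.CZ Pool.Agent.N770.CP

variable {G : Type} [Group G] [Fintype G] {X : Type} [MulAction G X]

/-- the difference of the numbers of the conjugates of `g` which map `x` to `y` and to `c y` -/
noncomputable def D (c : G) (x y : X) (g : G) : ℤ := (cnt x y g : ℤ) - cnt x (c • y) g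

lemma cnt_smul (k : G) (x y : X) (g : G) : cnt (k • x) (k • y) g = cnt x y g := by
  unfold cnt
  refine Finset.card_bijective (fun h => h * k) (Group.mulRight_bijective k) (fun h => ?_)
  simp only [Finset.mem_filter, Finset.mem_univ, true_and]
  have h1 : ((h * k)⁻¹ * g * (h * k)) • x = k⁻¹ • ((h⁻¹ * g * h) • (k • x)) := by
    have h2 : (h * k)⁻¹ * g * (h * k) = k⁻¹ * ((h⁻¹ * g * h) * k) := by group
    rw [h2, mul_smul k⁻¹, mul_smul (h⁻¹ * g * h) k]
  rw [h1, inv_smul_eq_iff]

variable {c : G}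

omit [Fintype G] in
lemma c_smul_comm (hc : ∀ g, c * g = g * c) (k : G) (x : X) : c • k • x = k • c • x := by
  rw [← mul_smul, ← mul_smul, hc]

lemma D_smul (hc : ∀ g, c * g = g * c) (k : G) (x y : X) (g : G) :
    D c (k • x) (k • y) g = D c x y g := by
  unfold D
  rw [cnt_smul, c_smul_comm hc, cnt_smul]

lemma D_right (hc2 : c * c = 1) (x y : X) (g : G) : D c x (c • y) g = -D c x y g := by
  unfold D
  rw [← mul_smul, hc2, one_smul]
  ring

lemma D_left (hc : ∀ g, c * g = g * c) (hc2 : c * c = 1) (x y : X) (g : G) :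
    D c (c • x) y g = -D c x y g := by
  have h := D_smul hc c x (c • y) g
  rw [← mul_smul, hc2, one_smul, D_right hc2] at h
  exact h

lemma cnt_self_zpowers {g g' : G} (h : Subgroup.zpowers g = Subgroup.zpowers g') (x : X) :
    cnt x x g = cnt x x g' := by
  have key : ∀ {a b : G}, Subgroup.zpowers a = Subgroup.zpowers b → ∀ k : G,
      (k⁻¹ * a * k) • x = x → (k⁻¹ * b * k) • x = x := by
    intro a b hab k hk
    have h1 : a ∈ MulAction.stabilizer G (k • x) := by
      rw [MulAction.mem_stabilizer_iff]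
      rw [mul_smul, mul_smul, inv_smul_eq_iff] at hk
      exact hk
    have h2 : Subgroup.zpowers a ≤ MulAction.stabilizer G (k • x) := by
      rw [Subgroup.zpowers_le]; exact h1
    rw [hab] at h2
    have h3 : b • k • x = k • x := h2 (Subgroup.mem_zpowers b)
    rw [mul_smul, mul_smul, inv_smul_eq_iff]
    exact h3
  unfold cnt
  congr 1
  ext k
  simp only [Finset.mem_filter, Finset.mem_univ, true_and]
  exact ⟨key h k, key h.symm k⟩

lemma D_self_zpowers (hc : ∀ g, c * g = g * c) (hc2 : c * c = 1) {g g' : G}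
    (h : Subgroup.zpowers g = Subgroup.zpowers g') (x : X) : D c x x g = D c x x g' := by
  unfold D
  rw [← cnt_c hc x x hc2, ← cnt_c hc x x hc2, cnt_self_zpowers h,
    cnt_self_zpowers (zpowers_c hc hc2 h)]

/-- The class function of a half-system is determined by the differences. -/
lemma zinv_a0_of (hc : ∀ g, c * g = g * c) (hc2 : c * c = 1) (x : X) {Φ : Finset X}
    (hΦ : IsHalf c Φ)
    (hD : ∀ (y : X) (g g' : G), Subgroup.zpowers g = Subgroup.zpowers g' →
      D c x y g = D c x y g') : ZInv (a0 x Φ : G → ℚ) := by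
  intro g g' hgg
  have key : ∀ g : G, a0 x Φ g - a0 x Φ (c * g) =
      ((∑ y ∈ Φ, D c x y g : ℤ) : ℚ) / Fintype.card G := by
    intro g
    rw [a0_cnt, a0_cnt, ← sub_div, ← Finset.sum_sub_distrib]
    congr 1
    unfold D
    push_cast
    refine Finset.sum_congr rfl (fun y _ => ?_)
    rw [cnt_c hc x y hc2]
  have hdiff : a0 x Φ g - a0 x Φ (c * g) = a0 x Φ g' - a0 x Φ (c * g') := by
    rw [key, key]
    congr 2
    exact Finset.sum_congr rfl (fun y _ => hD y g g' hgg)
  have h1 := a0_add hc x hΦ g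
  have h2 := a0_add hc x hΦ g'
  linarith

/-- The same for the sum over a half-system. -/
lemma zinv_T_of (hc : ∀ g, c * g = g * c) (hc2 : c * c = 1) {Φ : Finset X}
    (hΦ : IsHalf c Φ)
    (hD : ∀ (x y : X) (g g' : G), Subgroup.zpowers g = Subgroup.zpowers g' →
      D c x y g + D c y x g = D c x y g' + D c y x g') : ZInv (T Φ : G → ℚ) := by
  intro g g' hgg
  have key : ∀ g : G, T Φ g - T Φ (c * g) =
      ((∑ x ∈ Φ, ∑ y ∈ Φ, D c x y g : ℤ) : ℚ) / Fintype.card G := by
    intro g
    unfold T
    rw [← Finset.sum_sub_distrib, Int.cast_sum, Finset.sum_div]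
    refine Finset.sum_congr rfl (fun x _ => ?_)
    rw [a0_cnt, a0_cnt, ← sub_div, ← Finset.sum_sub_distrib]
    congr 1
    unfold D
    push_cast
    refine Finset.sum_congr rfl (fun y _ => ?_)
    rw [cnt_c hc x y hc2]
  have hsum : ∑ x ∈ Φ, ∑ y ∈ Φ, D c x y g = ∑ x ∈ Φ, ∑ y ∈ Φ, D c x y g' := by
    have h2 : ∀ g : G, 2 * ∑ x ∈ Φ, ∑ y ∈ Φ, D c x y g =
        ∑ x ∈ Φ, ∑ y ∈ Φ, (D c x y g + D c y x g) := by
      intro g
      rw [two_mul]
      conv_lhs => rhs; rw [Finset.sum_comm]
      rw [← Finset.sum_add_distrib]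
      exact Finset.sum_congr rfl (fun x _ => Finset.sum_add_distrib.symm)
    have h3 : (2 : ℤ) * ∑ x ∈ Φ, ∑ y ∈ Φ, D c x y g = 2 * ∑ x ∈ Φ, ∑ y ∈ Φ, D c x y g' := by
      rw [h2, h2]
      exact Finset.sum_congr rfl (fun x _ => Finset.sum_congr rfl (fun y _ => hD x y g g' hgg))
    linarith
  have hdiff : T Φ g - T Φ (c * g) = T Φ g' - T Φ (c * g') := by
    rw [key, key, hsum]
  have h1 := T_add hc hΦ g
  have h2 := T_add hc hΦ g'
  linarith

/-- the points `x`, `y` lie in different orbits of `c` -/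
def Nc (c : G) (x y : X) : Prop := y ≠ x ∧ y ≠ c • x

/-- `G` acts two-transitively on the orbits of `c` -/
def TwoTrans (c : G) (X : Type) [MulAction G X] : Prop :=
  ∀ x y x' y' : X, Nc c x y → Nc c x' y' →
    ∃ g : G, (g • x = x' ∨ g • x = c • x') ∧ (g • y = y' ∨ g • y = c • y')

/-- invariant functions of two points which are odd in each of them -/
structure InvOdd (c : G) (F : X → X → ℤ) : Prop where
  inv : ∀ (k : G) (x y : X), F (k • x) (k • y) = F x y
  right : ∀ x y : X, F x (c • y) = -F x y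
  left : ∀ x y : X, F (c • x) y = -F x y

/-- a function with values `± 1` outside of the pairs of points of one orbit of `c` -/
structure Sgn (c : G) (e : X → X → ℤ) : Prop where
  io : InvOdd c e
  zero : ∀ x y : X, ¬ Nc c x y → e x y = 0
  one : ∀ x y : X, Nc c x y → e x y * e x y = 1

omit [Fintype G] in
lemma exists_sign (h2 : TwoTrans c X) {x y x' y' : X} (h : Nc c x y) (h' : Nc c x' y') :
    ∃ ε : ℤ, ε * ε = 1 ∧ ∀ F : X → X → ℤ, InvOdd c F → F x' y' = ε * F x y := by
  obtain ⟨g, h3 | h3, h4 | h4⟩ := h2 x y x' y' h h'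
  · refine ⟨1, by norm_num, fun F hF => ?_⟩
    rw [← hF.inv g x y, h3, h4, one_mul]
  · refine ⟨-1, by norm_num, fun F hF => ?_⟩
    rw [← hF.inv g x y, h3, h4, hF.right]
    ring
  · refine ⟨-1, by norm_num, fun F hF => ?_⟩
    rw [← hF.inv g x y, h3, h4, hF.left]
    ring
  · refine ⟨1, by norm_num, fun F hF => ?_⟩
    rw [← hF.inv g x y, h3, h4, hF.left, hF.right]
    ring

omit [Fintype G] in
/-- every invariant odd function is a multiple of the sign -/
lemma exists_mul (h2 : TwoTrans c X) {e : X → X → ℤ} (he : Sgn c e) {F : X → X → ℤ}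
    (hF : InvOdd c F) : ∃ m : ℤ, ∀ x y : X, Nc c x y → F x y = m * e x y := by
  by_cases hN : ∃ x y : X, Nc c x y
  · obtain ⟨x, y, hxy⟩ := hN
    refine ⟨F x y * e x y, fun x' y' h' => ?_⟩
    obtain ⟨ε, h3, h4⟩ := exists_sign h2 hxy h'
    rw [h4 F hF, h4 e he.io]
    have h5 := he.one x y hxy
    linear_combination (-(F x y * ε)) * h5
  · push Not at hN
    exact ⟨0, fun x y h => absurd h (hN x y)⟩

lemma D_invOdd (hc : ∀ g, c * g = g * c) (hc2 : c * c = 1) (g : G) :
    InvOdd c (fun x y : X => D c x y g) :=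
  ⟨fun k x y => D_smul hc k x y g, fun x y => D_right hc2 x y g, fun x y => D_left hc hc2 x y g⟩

omit [Fintype G] in
lemma Nc_smul (hc : ∀ g, c * g = g * c) (k : G) (x y : X) : Nc c (k • x) (k • y) ↔ Nc c x y := by
  unfold Nc
  rw [c_smul_comm hc, Ne, smul_left_cancel_iff, Ne, smul_left_cancel_iff]

omit [Fintype G] in
lemma Nc_symm (hc2 : c * c = 1) {x y : X} (h : Nc c x y) : Nc c y x := by
  refine ⟨fun h1 => h.1 h1.symm, fun h1 => h.2 ?_⟩
  rw [h1, ← mul_smul, hc2, one_smul]

omit [Fintype G] in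
lemma Nc_right (hc2 : c * c = 1) (x y : X) : Nc c x (c • y) ↔ Nc c x y := by
  have key : ∀ y : X, Nc c x y → Nc c x (c • y) := by
    intro y h
    refine ⟨fun h1 => h.2 ?_, fun h1 => h.1 (smul_left_cancel c h1)⟩
    rw [← h1, ← mul_smul, hc2, one_smul]
  refine ⟨fun h => ?_, key y⟩
  have := key _ h
  rwa [← mul_smul, hc2, one_smul] at this

omit [Fintype G] in
lemma Nc_left (hc2 : c * c = 1) (x y : X) : Nc c (c • x) y ↔ Nc c x y := by
  constructor
  · intro h
    exact Nc_symm hc2 ((Nc_right hc2 y x).1 (Nc_symm hc2 h))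
  · intro h
    exact Nc_symm hc2 ((Nc_right hc2 y x).2 (Nc_symm hc2 h))

/-- the differences are all zero, or there is a sign and they are multiples of it -/
lemma dichotomy (hc : ∀ g, c * g = g * c) (hc2 : c * c = 1) (h2 : TwoTrans c X) :
    (∀ (x y : X) (g : G), Nc c x y → D c x y g = 0) ∨
      ∃ e : X → X → ℤ, Sgn c e ∧ ∃ s : G → ℤ, ∀ (x y : X) (g : G), Nc c x y →
        D c x y g = s g * e x y := by
  by_cases h0 : ∀ (x y : X) (g : G), Nc c x y → D c x y g = 0
  · exact Or.inl h0
  right
  push Not at h0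
  obtain ⟨x0, y0, g0, hxy, hne⟩ := h0
  have hval : ∀ x y : X, Nc c x y → D c x y g0 = D c x0 y0 g0 ∨ D c x y g0 = -D c x0 y0 g0 := by
    intro x y h
    obtain ⟨ε, h3, h4⟩ := exists_sign h2 hxy h
    rw [h4 _ (D_invOdd hc hc2 g0)]
    have h5 : (ε - 1) * (ε + 1) = 0 := by linear_combination h3
    rcases mul_eq_zero.1 h5 with h6 | h6
    · left
      have : ε = 1 := by linarith
      rw [this, one_mul]
    · right
      have : ε = -1 := by linarith
      rw [this]
      ring
  set a := D c x0 y0 g0 with ha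
  have hna : -a ≠ a := fun h => hne (by linarith)
  set e : X → X → ℤ := fun x y => if Nc c x y then (if D c x y g0 = a then 1 else -1) else 0
    with he
  have hSgn : Sgn c e := by
    refine ⟨⟨?_, ?_, ?_⟩, ?_, ?_⟩
    · intro k x y
      simp only [he, Nc_smul hc, D_smul hc]
    · intro x y
      simp only [he, Nc_right hc2, D_right hc2]
      split_ifs with h1 h3 h4 h5
      · exfalso
        exact hna (by linarith)
      · rfl
      · ring
      · exfalso
        rcases hval x y h1 with h6 | h6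
        · exact h5 h6
        · exact h3 (by linarith)
      · ring
    · intro x y
      simp only [he, Nc_left hc2, D_left hc hc2]
      split_ifs with h1 h3 h4 h5
      · exfalso
        exact hna (by linarith)
      · rfl
      · ring
      · exfalso
        rcases hval x y h1 with h6 | h6
        · exact h5 h6
        · exact h3 (by linarith)
      · ring
    · intro x y h
      simp only [he, if_neg h]
    · intro x y h
      simp only [he, if_pos h]
      split_ifs <;> norm_num
  refine ⟨e, hSgn, ?_⟩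
  have h5 : ∀ g : G, ∃ m : ℤ, ∀ x y : X, Nc c x y → D c x y g = m * e x y := fun g =>
    exists_mul h2 hSgn (D_invOdd hc hc2 g)
  choose s hs using h5
  exact ⟨s, fun x y g h => hs g x y h⟩

end Pool.Agent.V7H4.CT
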