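import Pool.Agent.V7H4.CT.A

/-!
# The matrix of a two-transitive sign
-/

set_option autoImplicit false

open scoped Classical
open Matrix

namespace Pool.Agent.V7H4.CT

open Pool.Agent.Q11.CZ Pool.Agent.N770.CP

variable {G : Type} [Group G] [Fintype G] {X : Type} [Fintype X] [MulAction G X] {c : G}

set_option linter.unusedSectionVars false

/-- the permutation matrix -/
noncomputable def PM (A : Type) [Zero A] [One A] (g : G) : Matrix X X A := Matrix.of fun x y => if x = g • y then 1 else 0

/-- the matrix of a function of two points -/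
def SM (A : Type) [IntCast A] (e : X → X → ℤ) : Matrix X X A := Matrix.of fun x y => (e x y : A)

omit [Fintype G] in
lemma PM_mul (A : Type) [CommRing A] (g h : G) : (PM A (g * h) : Matrix X X A) = PM A g * PM A h := by
  ext x y
  simp only [PM, Matrix.mul_apply, Matrix.of_apply]
  simp only [mul_ite, mul_one, mul_zero, Finset.sum_ite_eq', Finset.mem_univ, if_true, mul_smul]

omit [Fintype G] in
lemma PM_one (A : Type) [CommRing A] : (PM A (1 : G) : Matrix X X A) = 1 := by
  ext x y
  simp only [PM, Matrix.of_apply, one_smul, Matrix.one_apply]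

omit [Fintype G] in
lemma PM_pow (A : Type) [CommRing A] (g : G) (k : ℕ) :
    (PM A (g ^ k) : Matrix X X A) = PM A g ^ k := by
  induction k with
  | zero => rw [pow_zero, pow_zero, PM_one]
  | succ k ih => rw [pow_succ, PM_mul, ih, pow_succ]

omit [Fintype G] in
lemma SM_mul_PM (A : Type) [CommRing A] (e : X → X → ℤ) (g : G) (x y : X) :
    (SM A e * PM A g : Matrix X X A) x y = (e x (g • y) : A) := by
  simp only [SM, PM, Matrix.mul_apply, Matrix.of_apply]
  simp only [mul_ite, mul_one, mul_zero, Finset.sum_ite_eq', Finset.mem_univ, if_true]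

omit [Fintype G] in
lemma PM_mul_SM (A : Type) [CommRing A] (e : X → X → ℤ) (g : G) (x y : X) :
    (PM A g * SM A e : Matrix X X A) x y = (e (g⁻¹ • x) y : A) := by
  simp only [SM, PM, Matrix.mul_apply, Matrix.of_apply]
  have h : ∀ z : X, (if x = g • z then (1 : A) else 0) = if z = g⁻¹ • x then 1 else 0 := by
    intro z
    congr 1
    rw [eq_iff_iff, eq_inv_smul_iff, eq_comm]
  simp only [h, ite_mul, one_mul, zero_mul, Finset.sum_ite_eq', Finset.mem_univ, if_true]

omit [Fintype G] in
lemma comm_PM (A : Type) [CommRing A] {e : X → X → ℤ} (he : InvOdd c e) (g : G) :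
    Commute (SM A e : Matrix X X A) (PM A g) := by
  ext x y
  rw [SM_mul_PM, PM_mul_SM]
  have := he.inv g (g⁻¹ • x) y
  rw [smul_inv_smul] at this
  rw [this]

/-- the twisted trace -/
noncomputable def tau (e : X → X → ℤ) (g : G) : ℤ := ∑ x : X, e x (g • x)

omit [Fintype G] in
lemma trace_SP (A : Type) [CommRing A] (e : X → X → ℤ) (g : G) :
    (SM A e * PM A g : Matrix X X A).trace = (tau e g : A) := by
  simp only [Matrix.trace, Matrix.diag, SM_mul_PM, tau]
  push_cast
  rfl

/-- sums over all points are invariant -/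
lemma sum_smul {A : Type} [AddCommMonoid A] (k : G) (f : X → A) : ∑ x : X, f (k • x) = ∑ x : X, f x :=
  Equiv.sum_comp (MulAction.toPerm k) f

/-- the relation between the differences and the twisted trace -/
lemma sum_D (hc2 : c * c = 1) {e : X → X → ℤ} (he : InvOdd c e) (g : G) :
    ∑ x : X, ∑ y : X, e x y * D c x y g = 2 * (Fintype.card G : ℤ) * tau e g := by
  have h1 : ∀ x : X, ∑ y : X, e x y * D c x y g = 2 * ∑ y : X, e x y * (cnt x y g : ℤ) := by
    intro x
    have h2 : ∑ y : X, e x y * (cnt x (c • y) g : ℤ) = -∑ y : X, e x y * (cnt x y g : ℤ) := by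
      rw [← sum_smul c (fun y => e x y * (cnt x (c • y) g : ℤ)), ← Finset.sum_neg_distrib]
      refine Finset.sum_congr rfl fun y _ => ?_
      rw [← mul_smul, hc2, one_smul, he.right]
      ring
    unfold D
    simp only [mul_sub, Finset.sum_sub_distrib]
    rw [h2]
    ring
  have h3 : ∀ x : X, ∑ y : X, e x y * (cnt x y g : ℤ) = ∑ h : G, e x ((h⁻¹ * g * h) • x) := by
    intro x
    have h4 : ∀ y : X, e x y * (cnt x y g : ℤ) =
        ∑ h : G, if (h⁻¹ * g * h) • x = y then e x y else 0 := by
      intro y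
      unfold cnt
      rw [Finset.card_filter]
      push_cast
      rw [Finset.mul_sum]
      refine Finset.sum_congr rfl fun h _ => ?_
      rw [mul_ite, mul_one, mul_zero]
    rw [Finset.sum_congr rfl fun y _ => h4 y, Finset.sum_comm]
    refine Finset.sum_congr rfl fun h _ => ?_
    rw [Finset.sum_ite_eq]
    simp
  rw [Finset.sum_congr rfl fun x _ => h1 x, ← Finset.mul_sum, Finset.sum_congr rfl fun x _ => h3 x,
    Finset.sum_comm]
  have h5 : ∀ h : G, ∑ x : X, e x ((h⁻¹ * g * h) • x) = tau e g := by
    intro h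
    unfold tau
    rw [← sum_smul h (fun x => e x (g • x))]
    refine Finset.sum_congr rfl fun x _ => ?_
    rw [← he.inv h x, ← mul_smul, ← mul_smul]
    congr 2
    group
  rw [Finset.sum_congr rfl fun h _ => h5 h, Finset.sum_const, Finset.card_univ, nsmul_eq_mul]
  ring

/-- the sum of the squares of the sign over a row -/
lemma row_sq (hfree : ∀ x : X, c • x ≠ x) {e : X → X → ℤ} (he : Sgn c e) (x : X) :
    ∑ y : X, e x y * e x y = (Fintype.card X : ℤ) - 2 := by
  have h1 : ∀ y : X, e x y * e x y = 1 - (if y = x then 1 else 0) - (if y = c • x then 1 else 0) := by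
    intro y
    by_cases h2 : y = x
    · rw [he.zero x y (fun h => h.1 h2), if_pos h2, if_neg]
      · norm_num
      · rw [h2]
        exact fun h => hfree x h.symm
    · by_cases h3 : y = c • x
      · rw [he.zero x y (fun h => h.2 h3), if_neg h2, if_pos h3]
        norm_num
      · rw [he.one x y ⟨h2, h3⟩, if_neg h2, if_neg h3]
        norm_num
  rw [Finset.sum_congr rfl fun y _ => h1 y, Finset.sum_sub_distrib, Finset.sum_sub_distrib]
  simp
  ring

/-- the products of the sign with itself -/
noncomputable def F2 (e : X → X → ℤ) (x y : X) : ℤ := ∑ z : X, e x z * e z y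

lemma F2_invOdd {e : X → X → ℤ} (he : InvOdd c e) : InvOdd c (F2 e) := by
  refine ⟨fun k x y => ?_, fun x y => ?_, fun x y => ?_⟩
  · unfold F2
    rw [← sum_smul k (fun z => e (k • x) z * e z (k • y))]
    simp only [he.inv]
  · unfold F2
    rw [← Finset.sum_neg_distrib]
    refine Finset.sum_congr rfl fun z _ => ?_
    rw [he.right]
    ring
  · unfold F2
    rw [← Finset.sum_neg_distrib]
    refine Finset.sum_congr rfl fun z _ => ?_
    rw [he.left]
    ring

omit [Fintype G] [Fintype X] in
lemma flip_invOdd {e : X → X → ℤ} (he : InvOdd c e) : InvOdd c (fun x y => e y x) :=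
  ⟨fun k x y => he.inv k y x, fun x y => he.left y x, fun x y => he.right y x⟩

/-- The data of a two-transitive sign: `e y x = η e x y` and `e² = m e` off the orbits. -/
structure Data (c : G) (e : X → X → ℤ) (η m : ℤ) : Prop where
  sgn : Sgn c e
  flip : ∀ x y : X, e y x = η * e x y
  sq : ∀ x y : X, Nc c x y → F2 e x y = m * e x y
  hη : η * η = 1

lemma exists_data (hc2 : c * c = 1) (h2 : TwoTrans c X) {e : X → X → ℤ} (he : Sgn c e)
    (hN : ∃ x y : X, Nc c x y) : ∃ η m : ℤ, Data c e η m := by
  obtain ⟨η, hη⟩ := exists_mul h2 he (flip_invOdd he.io)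
  obtain ⟨m, hm⟩ := exists_mul h2 he (F2_invOdd he.io)
  obtain ⟨x, y, hxy⟩ := hN
  have hyx : Nc c y x := Nc_symm hc2 hxy
  refine ⟨η, m, he, ?_, hm, ?_⟩
  · intro x y
    by_cases h : Nc c x y
    · exact hη x y h
    · rw [he.zero x y h, he.zero y x (fun h' => h (Nc_symm hc2 h')), mul_zero]
  · have h3 := hη x y hxy
    have h4 : e x y = η * e y x := hη y x hyx
    have h3' : e y x = η * e x y := h3
    rw [h3'] at h4
    have h5 := he.one x y hxy
    have h6 : (η * η - 1) * (e x y * e x y) = 0 := by linear_combination (-(e x y)) * h4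
    rw [h5, mul_one] at h6
    linarith

lemma F2_self (hfree : ∀ x : X, c • x ≠ x) {e : X → X → ℤ} {η m : ℤ} (hd : Data c e η m) (x : X) :
    F2 e x x = η * ((Fintype.card X : ℤ) - 2) := by
  rw [← row_sq hfree hd.sgn x, Finset.mul_sum]
  unfold F2
  refine Finset.sum_congr rfl fun z _ => ?_
  rw [hd.flip x z]
  ring

lemma F2_all (hfree : ∀ x : X, c • x ≠ x) {e : X → X → ℤ} {η m : ℤ} (hd : Data c e η m) (x y : X) :
    F2 e x y = m * e x y + η * ((Fintype.card X : ℤ) - 2) *
      ((if y = x then 1 else 0) - (if y = c • x then 1 else 0)) := by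
  by_cases h1 : y = x
  · have h2 : y ≠ c • x := by
      rw [h1]
      exact fun h => hfree x h.symm
    rw [if_pos h1, if_neg h2, hd.sgn.zero x y (fun h => h.1 h1), h1, F2_self hfree hd]
    ring
  · by_cases h2 : y = c • x
    · rw [if_neg h1, if_pos h2, hd.sgn.zero x y (fun h => h.2 h2), h2,
        (F2_invOdd hd.sgn.io).right, F2_self hfree hd]
      ring
    · rw [if_neg h1, if_neg h2, hd.sq x y ⟨h1, h2⟩]
      ring

/-- the cubic equation of the matrix -/
lemma SM_cube (A : Type) [CommRing A] (hfree : ∀ x : X, c • x ≠ x) {e : X → X → ℤ} {η m : ℤ}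
    (hd : Data c e η m) :
    (SM A e : Matrix X X A) ^ 3 = (m : A) • (SM A e) ^ 2 +
      ((2 * η * ((Fintype.card X : ℤ) - 2) : ℤ) : A) • (SM A e) := by
  have hsq : ∀ x y : X, ((SM A e : Matrix X X A) ^ 2) x y = (F2 e x y : A) := by
    intro x y
    rw [pow_two, Matrix.mul_apply]
    unfold F2
    push_cast
    rfl
  ext x y
  rw [pow_succ, Matrix.mul_apply, Matrix.add_apply, Matrix.smul_apply, Matrix.smul_apply, hsq]
  have h1 : ∀ z : X, ((SM A e : Matrix X X A) ^ 2) x z * (SM A e : Matrix X X A) z y =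
      ((F2 e x z * e z y : ℤ) : A) := by
    intro z
    rw [hsq]
    push_cast
    rfl
  rw [Finset.sum_congr rfl fun z _ => h1 z, ← Int.cast_sum]
  have h2 : ∑ z : X, F2 e x z * e z y = m * F2 e x y +
      2 * η * ((Fintype.card X : ℤ) - 2) * e x y := by
    have h3 : ∀ z : X, F2 e x z * e z y = m * (e x z * e z y) +
        η * ((Fintype.card X : ℤ) - 2) *
          ((if z = x then e z y else 0) - (if z = c • x then e z y else 0)) := by
      intro z
      rw [F2_all hfree hd x z]
      split_ifs <;> ring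
    rw [Finset.sum_congr rfl fun z _ => h3 z, Finset.sum_add_distrib, ← Finset.mul_sum,
      ← Finset.mul_sum, Finset.sum_sub_distrib]
    simp only [Finset.sum_ite_eq', Finset.mem_univ, if_true]
    rw [hd.sgn.io.left]
    unfold F2
    ring
  rw [h2]
  simp only [SM, Matrix.of_apply, smul_eq_mul]
  push_cast
  ring

lemma SM_trace (A : Type) [CommRing A] {e : X → X → ℤ} (he : Sgn c e) :
    (SM A e : Matrix X X A).trace = 0 := by
  simp only [Matrix.trace, Matrix.diag, SM, Matrix.of_apply]
  refine Finset.sum_eq_zero fun x _ => ?_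
  rw [he.zero x x (fun h => h.1 rfl)]
  simp

lemma SM_sq_trace (A : Type) [CommRing A] (hfree : ∀ x : X, c • x ≠ x) {e : X → X → ℤ} {η m : ℤ}
    (hd : Data c e η m) :
    ((SM A e : Matrix X X A) ^ 2).trace =
      ((Fintype.card X * (η * ((Fintype.card X : ℤ) - 2)) : ℤ) : A) := by
  have hsq : ∀ x : X, ((SM A e : Matrix X X A) ^ 2) x x = ((η * ((Fintype.card X : ℤ) - 2) : ℤ) : A) := by
    intro x
    rw [pow_two, Matrix.mul_apply, ← F2_self hfree hd x]
    unfold F2
    push_cast
    rfl
  simp only [Matrix.trace, Matrix.diag, hsq]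
  rw [Finset.sum_const, Finset.card_univ, nsmul_eq_mul]
  push_cast
  ring

end Pool.Agent.V7H4.CT
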