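import Pool.Agent.V7H4.CT.B

/-!
# The trace modulo a prime, and the discriminant
-/

set_option autoImplicit false

open scoped Classical
open Matrix

namespace Pool.Agent.V7H4.CT

open Pool.Agent.Q11.CZ Pool.Agent.N770.CP

set_option linter.unusedSectionVars false

variable {G : Type} [Group G] [Fintype G] {X : Type} [Fintype X] [MulAction G X] {c : G}

/-- a matrix over `𝔽_p` with `M (M - a) (M - b) = 0`, `0, a, b` different, satisfies `M ^ p = M` -/
lemma pow_card_eq {p : ℕ} [Fact p.Prime] (M : Matrix X X (ZMod p)) (a b : ZMod p) (ha : a ≠ 0)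
    (hb : b ≠ 0) (hab : a ≠ b) (h : M ^ 3 = (a + b) • M ^ 2 + (-(a * b)) • M) : M ^ p = M := by
  have hp1 : 1 < p := (Fact.out : p.Prime).one_lt
  set f : Polynomial (ZMod p) := (({0, a, b} : Multiset (ZMod p)).map
    fun t => Polynomial.X - Polynomial.C t).prod with hf
  have hf0 : Polynomial.aeval M f = 0 := by
    have h1 : f = Polynomial.X ^ 3 - Polynomial.C (a + b) * Polynomial.X ^ 2 -
        Polynomial.C (-(a * b)) * Polynomial.X := by
      rw [hf]
      simp only [Multiset.insert_eq_cons, Multiset.map_cons, Multiset.map_singleton,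
        Multiset.prod_cons, Multiset.prod_singleton, map_zero, map_add, map_neg, map_mul]
      ring
    rw [h1]
    simp only [map_sub, map_mul, map_pow, Polynomial.aeval_X, Polynomial.aeval_C]
    rw [h, ← Algebra.smul_def, ← Algebra.smul_def]
    abel
  have hdvd : f ∣ Polynomial.X ^ p - Polynomial.X := by
    have hne : (Polynomial.X ^ p - Polynomial.X : Polynomial (ZMod p)) ≠ 0 :=
      FiniteField.X_pow_card_sub_X_ne_zero _ hp1
    rw [hf, Multiset.prod_X_sub_C_dvd_iff_le_roots hne]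
    have h2 := FiniteField.roots_X_pow_card_sub_X (ZMod p)
    rw [ZMod.card] at h2
    rw [h2, Multiset.le_iff_subset]
    · intro x _
      exact Finset.mem_univ x
    · simp only [Multiset.insert_eq_cons, Multiset.nodup_cons, Multiset.mem_cons,
        Multiset.mem_singleton, Multiset.nodup_singleton, and_true, not_or]
      exact ⟨⟨ha.symm, hb.symm⟩, hab⟩
  obtain ⟨q, hq⟩ := hdvd
  have h3 : Polynomial.aeval M (Polynomial.X ^ p - Polynomial.X : Polynomial (ZMod p)) = 0 := by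
    rw [hq, map_mul, hf0, zero_mul]
  simp only [map_sub, map_pow, Polynomial.aeval_X] at h3
  exact sub_eq_zero.1 h3

lemma tau_abs {e : X → X → ℤ} (he : Sgn c e) (g : G) : |tau e g| ≤ Fintype.card X := by
  unfold tau
  refine (Finset.abs_sum_le_sum_abs _ _).trans ?_
  refine (Finset.sum_le_card_nsmul _ _ 1 ?_).trans (by simp)
  intro x _
  by_cases h : Nc c x (g • x)
  · have h1 := he.one _ _ h
    have h2 : |e x (g • x)| * |e x (g • x)| = 1 := by rw [← abs_mul, h1, abs_one]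
    nlinarith [abs_nonneg (e x (g • x))]
  · rw [he.zero _ _ h]
    simp

/-- the twisted trace is the same at `g` and `g ^ p` for large primes `p` -/
lemma tau_pow {e : X → X → ℤ} {m : ℤ} (hfree : ∀ x : X, c • x ≠ x) (hd : Data c e 1 m) (a b : ℤ)
    (hab : a + b = m) (hab2 : a * b = -(2 * ((Fintype.card X : ℤ) - 2))) (ha : a ≠ 0) (hb : b ≠ 0)
    (hne : a ≠ b) {p : ℕ} (hp : p.Prime) (hpa : a.natAbs < p) (hpb : b.natAbs < p)
    (hpab : (a - b).natAbs < p) (hpX : 2 * Fintype.card X < p) (g : G) :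
    tau e (g ^ p) = tau e g := by
  have : Fact p.Prime := ⟨hp⟩
  have hz : ∀ t : ℤ, t ≠ 0 → t.natAbs < p → (t : ZMod p) ≠ 0 := by
    intro t ht h1 h2
    rw [ZMod.intCast_zmod_eq_zero_iff_dvd] at h2
    have h3 := Int.natAbs_dvd_natAbs.2 h2
    rw [Int.natAbs_natCast] at h3
    exact absurd (Nat.le_of_dvd (Int.natAbs_pos.2 ht) h3) (not_le.2 h1)
  have h1 := SM_cube (ZMod p) hfree hd
  have h2 : (SM (ZMod p) e : Matrix X X (ZMod p)) ^ p = SM (ZMod p) e := by
    refine pow_card_eq _ (a : ZMod p) (b : ZMod p) (hz a ha hpa) (hz b hb hpb) ?_ ?_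
    · intro h
      apply hz (a - b) (sub_ne_zero.2 hne) hpab
      push_cast
      rw [h, sub_self]
    · rw [h1]
      have e1 : (m : ZMod p) = (a : ZMod p) + b := by rw [← hab]; push_cast; rfl
      have e2 : ((2 * 1 * ((Fintype.card X : ℤ) - 2) : ℤ) : ZMod p) = -((a : ZMod p) * b) := by
        have e3 : (2 * 1 * ((Fintype.card X : ℤ) - 2) : ℤ) = -(a * b) := by rw [hab2]; ring
        rw [e3]
        push_cast
        rfl
      rw [e1, e2]
  have h3 : ((SM (ZMod p) e * PM (ZMod p) g : Matrix X X (ZMod p)) ^ p).trace =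
      (SM (ZMod p) e * PM (ZMod p) (g ^ p) : Matrix X X (ZMod p)).trace := by
    rw [(comm_PM (ZMod p) hd.sgn.io g).mul_pow, h2, PM_pow]
  rw [ZMod.trace_pow_card, trace_SP, trace_SP, ZMod.pow_card] at h3
  have h4 : (p : ℤ) ∣ tau e (g ^ p) - tau e g := by
    rw [← ZMod.intCast_zmod_eq_zero_iff_dvd]
    push_cast
    rw [← h3, sub_self]
  have h5 := tau_abs hd.sgn (g ^ p)
  have h6 := tau_abs hd.sgn g
  by_contra hcon
  have h7 : tau e (g ^ p) - tau e g ≠ 0 := sub_ne_zero.2 hcon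
  have h8 := Int.le_of_dvd (abs_pos.2 h7) ((dvd_abs _ _).2 h4)
  have h9 : |tau e (g ^ p) - tau e g| ≤ |tau e (g ^ p)| + |tau e g| := abs_sub _ _
  have h10 : (2 * (Fintype.card X : ℤ)) < p := by exact_mod_cast hpX
  linarith

/-- **Square discriminant.** -/
theorem tau_zpowers {e : X → X → ℤ} {m : ℤ} (hfree : ∀ x : X, c • x ≠ x) (hd : Data c e 1 m)
    (hX : 2 < Fintype.card X) (hsq : IsSquare (m ^ 2 + 8 * ((Fintype.card X : ℤ) - 2))) {g g' : G}
    (h : Subgroup.zpowers g = Subgroup.zpowers g') : tau e g = tau e g' := by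
  obtain ⟨d, hdd⟩ := hsq
  have hq : (0 : ℤ) < (Fintype.card X : ℤ) - 2 := by
    have : (2 : ℤ) < Fintype.card X := by exact_mod_cast hX
    linarith
  -- the two roots
  obtain ⟨a, ha2⟩ : ∃ a : ℤ, m + d = 2 * a := by
    have h1 : Even ((m + d) * (m - d)) := by
      refine ⟨-4 * ((Fintype.card X : ℤ) - 2), ?_⟩
      linear_combination hdd
    rcases Int.even_mul.1 h1 with h2 | h2
    · obtain ⟨a, ha⟩ := h2
      exact ⟨a, by linarith⟩
    · obtain ⟨a, ha⟩ := h2
      exact ⟨a + d, by linarith⟩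
  have hab2 : a * (m - a) = -(2 * ((Fintype.card X : ℤ) - 2)) := by
    have h1 : d = 2 * a - m := by linarith
    rw [h1] at hdd
    linarith
  have ha : a ≠ 0 := by
    rintro rfl
    linarith
  have hb : m - a ≠ 0 := by
    intro h0
    rw [h0] at hab2
    linarith
  have hne : a ≠ m - a := by
    intro h0
    rw [← h0] at hab2
    nlinarith [mul_self_nonneg a]
  obtain ⟨u, hu⟩ := exists_unit h
  have hN : NeZero (Nat.card G) := ⟨Nat.card_pos.ne'⟩
  obtain ⟨p, hpgt, hp, hpu⟩ := Nat.forall_exists_prime_gt_and_eq_mod (q := Nat.card G)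
    (a := (u : ZMod (Nat.card G))) u.isUnit
    (a.natAbs + (m - a).natAbs + (a - (m - a)).natAbs + 2 * Fintype.card X)
  have h1 := tau_pow hfree hd a (m - a) (by ring) hab2 ha hb hne hp (by omega) (by omega) (by omega)
    (by omega) g
  have h2 : g ^ p = g' := by
    rw [hu, pow_eq_pow_iff_modEq]
    have h3 : p ≡ (u : ZMod (Nat.card G)).val [MOD Nat.card G] := by
      rw [← ZMod.natCast_eq_natCast_iff, hpu, ZMod.natCast_zmod_val]
    exact h3.of_dvd (orderOf_dvd_natCard g)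
  rw [h2] at h1
  exact h1.symm

/-- the trace of an idempotent matrix is a natural number -/
lemma trace_idem (E : Matrix X X ℝ) (hE : E * E = E) : ∃ r : ℕ, E.trace = r := by
  have h1 : IsIdempotentElem (Matrix.toLin' E) := by
    unfold IsIdempotentElem
    rw [Module.End.mul_eq_comp, ← Matrix.toLin'_mul, hE]
  have h2 := (LinearMap.IsIdempotentElem.isProj_range _ h1).trace
  refine ⟨Module.finrank ℝ (LinearMap.range (Matrix.toLin' E)), ?_⟩
  rw [← h2, Matrix.trace_toLin'_eq]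

/-- **The discriminant is a square, or the matrix is a conference matrix.** -/
theorem square_or {e : X → X → ℤ} {m : ℤ} (hfree : ∀ x : X, c • x ≠ x) (hd : Data c e 1 m)
    (hX : 2 < Fintype.card X) :
    IsSquare (m ^ 2 + 8 * ((Fintype.card X : ℤ) - 2)) ∨ m = 0 := by
  set N : ℤ := (Fintype.card X : ℤ) with hNdef
  have hN : (2 : ℤ) < N := by rw [hNdef]; exact_mod_cast hX
  set δ : ℝ := Real.sqrt ((m : ℝ) ^ 2 + 8 * ((N : ℝ) - 2)) with hδ
  have hNr : (2 : ℝ) < N := by exact_mod_cast hN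
  have hpos : (0 : ℝ) < (m : ℝ) ^ 2 + 8 * ((N : ℝ) - 2) := by nlinarith [sq_nonneg (m : ℝ)]
  have hδ2 : δ ^ 2 = (m : ℝ) ^ 2 + 8 * ((N : ℝ) - 2) := Real.sq_sqrt hpos.le
  have hδ0 : 0 < δ := Real.sqrt_pos.2 hpos
  set lp : ℝ := ((m : ℝ) + δ) / 2 with hlp
  set lm : ℝ := ((m : ℝ) - δ) / 2 with hlm
  have hprod : lp * lm = -(2 * ((N : ℝ) - 2)) := by
    rw [hlp, hlm]
    linear_combination (-1 / 4) * hδ2
  have hlp0 : lp ≠ 0 := by
    intro h
    rw [h, zero_mul] at hprod
    linarith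
  set M : Matrix X X ℝ := SM ℝ e with hM
  have h3 : M ^ 3 = (m : ℝ) • M ^ 2 + (2 * ((N : ℝ) - 2)) • M := by
    have := SM_cube ℝ hfree hd
    rw [← hM] at this
    rw [this]
    congr 2
    rw [hNdef]
    push_cast
    ring
  have h4 : M ^ 4 = ((m : ℝ) ^ 2 + 2 * ((N : ℝ) - 2)) • M ^ 2 + ((m : ℝ) * (2 * ((N : ℝ) - 2))) • M := by
    have : M ^ 4 = M ^ 3 * M := by rw [← pow_succ]
    rw [this, h3, add_mul, smul_mul_assoc, smul_mul_assoc, ← pow_succ, h3, ← pow_two]
    module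
  set α : ℝ := (lp * δ)⁻¹ with hα
  have hαδ : α * (lp * δ) = 1 := inv_mul_cancel₀ (mul_ne_zero hlp0 hδ0.ne')
  set E : Matrix X X ℝ := α • M ^ 2 + (-(lm * α)) • M with hE
  have hlpδ : lp * δ = lp ^ 2 - lp * lm := by rw [hlp, hlm]; ring
  have hidem : E * E = E := by
    have h5 : E * E = (α * α) • M ^ 4 + (2 * (α * (-(lm * α)))) • M ^ 3 +
        ((-(lm * α)) * (-(lm * α))) • M ^ 2 := by
      rw [hE, add_mul, mul_add, mul_add]
      simp only [smul_mul_smul_comm]
      rw [← pow_add, ← pow_succ, ← pow_succ', ← pow_two M]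
      module
    rw [h5, h4, h3, hE]
    have hm : (m : ℝ) = lp + lm := by rw [hlp, hlm]; ring
    have hN2 : 2 * ((N : ℝ) - 2) = -(lp * lm) := by linarith
    rw [hm, hN2]
    have e1 : α * α * ((lp + lm) ^ 2 + -(lp * lm)) + 2 * (α * (-(lm * α))) * (lp + lm) +
        (-(lm * α)) * (-(lm * α)) = α := by
      have : α * α * ((lp + lm) ^ 2 + -(lp * lm)) + 2 * (α * (-(lm * α))) * (lp + lm) +
        (-(lm * α)) * (-(lm * α)) = α * (α * (lp ^ 2 - lp * lm)) := by ring
      rw [this, ← hlpδ, hαδ, mul_one]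
    have e2 : α * α * ((lp + lm) * -(lp * lm)) + 2 * (α * (-(lm * α))) * (-(lp * lm)) =
        -(lm * α) := by
      have : α * α * ((lp + lm) * -(lp * lm)) + 2 * (α * (-(lm * α))) * (-(lp * lm)) =
        -(lm * α) * (α * (lp ^ 2 - lp * lm)) := by ring
      rw [this, ← hlpδ, hαδ, mul_one]
    calc _ = (α * α * ((lp + lm) ^ 2 + -(lp * lm)) + 2 * (α * (-(lm * α))) * (lp + lm) +
        (-(lm * α)) * (-(lm * α))) • M ^ 2 +
        (α * α * ((lp + lm) * -(lp * lm)) + 2 * (α * (-(lm * α))) * (-(lp * lm))) • M := by module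
      _ = _ := by rw [e1, e2]
  obtain ⟨r, hr⟩ := trace_idem E hidem
  have htr : E.trace = α * (N * (N - 2)) := by
    rw [hE, Matrix.trace_add, Matrix.trace_smul, Matrix.trace_smul, hM, SM_trace ℝ hd.sgn,
      SM_sq_trace ℝ hfree hd, smul_zero, add_zero, smul_eq_mul]
    congr 1
    push_cast
    rw [hNdef]
    push_cast
    ring
  have h6 : (N : ℝ) * (N - 2) = r * (lp * δ) := by
    rw [← hr, htr]
    linear_combination (-(N * (N - 2) : ℝ)) * hαδ
  have h7 : (N : ℝ) * m = (N - 4 * r) * δ := by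
    have h8 : (N : ℝ) * (N - 2) * lm = r * (lp * lm) * δ := by rw [h6]; ring
    rw [hprod] at h8
    have hN2 : (N : ℝ) - 2 ≠ 0 := by linarith
    have h9 : ((N : ℝ) - 2) * (N * lm + 2 * r * δ) = 0 := by linear_combination h8
    have h10 := (mul_eq_zero.1 h9).resolve_left hN2
    rw [hlm] at h10
    linear_combination 2 * h10
  by_cases hr4 : (N : ℤ) - 4 * r = 0
  · right
    have h8 : (N : ℝ) - 4 * r = 0 := by exact_mod_cast hr4
    rw [h8, zero_mul] at h7
    have h9 : (N : ℝ) ≠ 0 := by linarith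
    have h10 := (mul_eq_zero.1 h7).resolve_left h9
    exact_mod_cast h10
  · left
    have h8 : ((N * m : ℤ) : ℝ) ^ 2 = ((N - 4 * r : ℤ) : ℝ) ^ 2 * ((m : ℝ) ^ 2 + 8 * ((N : ℝ) - 2)) := by
      rw [← hδ2]
      push_cast
      rw [h7]
      ring
    have h9 : (N * m) ^ 2 = (N - 4 * r) ^ 2 * (m ^ 2 + 8 * (N - 2)) := by exact_mod_cast h8
    have h10 : (N - 4 * r) ∣ N * m := by
      rw [← Int.pow_dvd_pow_iff (n := 2) (by norm_num)]
      exact ⟨_, h9⟩
    obtain ⟨t, ht⟩ := h10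
    refine ⟨t, ?_⟩
    rw [ht] at h9
    have h11 : (N - 4 * r) ^ 2 * (t * t) = (N - 4 * r) ^ 2 * (m ^ 2 + 8 * (N - 2)) := by
      linear_combination h9
    exact (mul_left_cancel₀ (pow_ne_zero 2 hr4) h11).symm

end Pool.Agent.V7H4.CT
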