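import Pool.Agent.V7H4.CT.C

/-!
# Counting modulo 8, and the main theorems of the group theory
-/

set_option autoImplicit false

open scoped Classical
open Matrix

namespace Pool.Agent.V7H4.CT

open Pool.Agent.Q11.CZ Pool.Agent.N770.CP

set_option linter.unusedSectionVars false

variable {G : Type} [Group G] [Fintype G] {X : Type} [Fintype X] [MulAction G X] {c : G}

lemma skew_zero {e : X → X → ℤ} {m : ℤ} (hd : Data c e (-1) m) (hN : ∃ x y : X, Nc c x y) :
    m = 0 := by
  obtain ⟨x, y, hxy⟩ := hN
  have h1 : F2 e y x = F2 e x y := by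
    unfold F2
    refine Finset.sum_congr rfl fun z _ => ?_
    rw [hd.flip z y, hd.flip x z]
    ring
  have h2 : F2 e y x = -F2 e x y := by
    have h3 := hd.sq x y hxy
    by_cases hyx : Nc c y x
    · rw [hd.sq y x hyx, h3, hd.flip x y]
      ring
    · exfalso
      apply hyx
      refine ⟨fun h => hxy.1 h.symm, fun h => ?_⟩
      have h4 := hd.sgn.one x y hxy
      have h5 := hd.flip x y
      have h6 : e y x = 0 := hd.sgn.zero y x hyx
      rw [h6] at h5
      have h7 : e x y = 0 := by linarith
      rw [h7] at h4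
      norm_num at h4
  have h3 := hd.sq x y hxy
  have h4 : F2 e x y = 0 := by linarith
  rw [h4] at h3
  have h5 := hd.sgn.one x y hxy
  have h6 : m * (e x y * e x y) = 0 := by rw [← mul_assoc, ← h3, zero_mul]
  rwa [h5, mul_one] at h6

/-- the indicator function of the orbit of `u` -/
noncomputable def cl (c : G) (u z : X) : ℤ := (if z = u then 1 else 0) + (if z = c • u then 1 else 0)

lemma cl_of_not {u z : X} (h1 : z ≠ u) (h2 : z ≠ c • u) : cl c u z = 0 := by
  unfold cl
  rw [if_neg h1, if_neg h2, add_zero]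

lemma cl_self (hfree : ∀ x : X, c • x ≠ x) (u : X) : cl c u u = 1 := by
  unfold cl
  rw [if_pos rfl, if_neg (fun h => hfree u h.symm), add_zero]

lemma cl_c (hfree : ∀ x : X, c • x ≠ x) (u : X) : cl c u (c • u) = 1 := by
  unfold cl
  rw [if_neg (hfree u), if_pos rfl, zero_add]

lemma sum_cl (hfree : ∀ x : X, c • x ≠ x) (u : X) (g : X → ℤ) :
    ∑ z : X, g z * cl c u z = g u + g (c • u) := by
  unfold cl
  simp only [mul_add, mul_ite, mul_one, mul_zero, Finset.sum_add_distrib, Finset.sum_ite_eq',
    Finset.mem_univ, if_true]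

/-- sums of invariant functions -/
lemma sum_inv (hc2 : c * c = 1) (hfree : ∀ x : X, c • x ≠ x) (f : X → ℤ) (hf : ∀ x, f (c • x) = f x)
    (h4 : ∀ x, (4 : ℤ) ∣ f x) : (8 : ℤ) ∣ ∑ x : X, f x := by
  obtain ⟨Φ, hΦ⟩ := exists_half (X := X) hc2 hfree
  rw [mem_halves] at hΦ
  have h1 : ∑ x : X, f x = ∑ x ∈ Φ, f x + ∑ x ∈ Φᶜ, f x := (Finset.sum_add_sum_compl Φ f).symm
  have h2 : ∑ x ∈ Φᶜ, f x = ∑ x ∈ Φ, f x := by
    symm
    refine Finset.sum_nbij' (fun x => c • x) (fun x => c • x) ?_ ?_ ?_ ?_ ?_
    · intro x hx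
      rw [Finset.mem_compl, hΦ]
      exact fun h => h hx
    · intro x hx
      rw [Finset.mem_compl] at hx
      exact (hΦ x).2 hx
    · intro x _
      rw [← mul_smul, hc2, one_smul]
    · intro x _
      rw [← mul_smul, hc2, one_smul]
    · intro x _
      exact (hf x).symm
  rw [h1, h2]
  obtain ⟨k, hk⟩ : (4 : ℤ) ∣ ∑ x ∈ Φ, f x := Finset.dvd_sum fun x _ => h4 x
  exact ⟨k, by rw [hk]; ring⟩

/-- **Counting modulo 8.** -/
lemma mod_eight (hc2 : c * c = 1) (hfree : ∀ x : X, c • x ≠ x) {e : X → X → ℤ} {η : ℤ}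
    (hd : Data c e η 0) {x y w : X} (hxy : Nc c x y) (hxw : Nc c x w) (hyw : Nc c y w) :
    (8 : ℤ) ∣ (Fintype.card X : ℤ) - 6 + 2 * (e x w * e w y) + 2 * (e x y * e y w) -
      2 * (e x y * e x w) := by
  have hyx := Nc_symm hc2 hxy
  have hwx := Nc_symm hc2 hxw
  have hwy := Nc_symm hc2 hyw
  set f : X → ℤ := fun z => (1 - cl c x z) * (1 - cl c y z) * (1 - cl c w z) *
    ((1 - e x z * e z y) * (1 - e x z * e z w)) with hf
  have hcs : ∀ u z : X, cl c u (c • z) = cl c u z := by
    intro u z
    unfold cl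
    have h1 : (c • z = u) ↔ (z = c • u) := by
      constructor
      · intro h; rw [← h, ← mul_smul, hc2, one_smul]
      · intro h; rw [h, ← mul_smul, hc2, one_smul]
    have h2 : (c • z = c • u) ↔ (z = u) := smul_left_cancel_iff c
    simp only [h1, h2]
    ring
  have hinv : ∀ z, f (c • z) = f z := by
    intro z
    simp only [hf, hcs]
    rw [hd.sgn.io.right x z, hd.sgn.io.left z y, hd.sgn.io.left z w]
    ring
  -- the four kinds of points
  have hcase : ∀ z : X, (z = x ∨ z = c • x) ∨ (z = y ∨ z = c • y) ∨ (z = w ∨ z = c • w) ∨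
      (Nc c x z ∧ Nc c y z ∧ Nc c w z) := by
    intro z
    unfold Nc
    tauto
  have hzero : ∀ u z : X, (z = u ∨ z = c • u) → cl c u z = 1 ∧ e u z = 0 ∧ e z u = 0 := by
    rintro u z (rfl | rfl)
    · exact ⟨cl_self hfree _, hd.sgn.zero _ _ (fun h => h.1 rfl), hd.sgn.zero _ _ (fun h => h.1 rfl)⟩
    · refine ⟨cl_c hfree _, hd.sgn.zero _ _ (fun h => h.2 rfl), hd.sgn.zero _ _ (fun h => h.2 ?_)⟩
      rw [← mul_smul, hc2, one_smul]
  have hcl0 : ∀ u v z : X, Nc c u v → (z = v ∨ z = c • v) → cl c u z = 0 := by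
    rintro u v z h (rfl | rfl)
    · exact cl_of_not h.1 h.2
    · rw [hcs]
      exact cl_of_not h.1 h.2
  have hexp : ∀ z, f z = 1 - cl c x z - cl c y z - cl c w z - e x z * e z y +
      (e x z * e z y) * cl c w z - e x z * e z w + (e x z * e z w) * cl c y z +
      e z y * e z w - (e z y * e z w) * cl c x z := by
    intro z
    simp only [hf]
    rcases hcase z with h | h | h | ⟨h1, h2, h3⟩
    · obtain ⟨a1, a2, a3⟩ := hzero x z h
      rw [a1, a2, hcl0 y x z hyx h, hcl0 w x z hwx h]
      ring
    · obtain ⟨a1, a2, a3⟩ := hzero y z h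
      rw [a1, a3, hcl0 x y z hxy h, hcl0 w y z hwy h]
      ring
    · obtain ⟨a1, a2, a3⟩ := hzero w z h
      rw [a1, a3, hcl0 x w z hxw h, hcl0 y w z hyw h]
      ring
    · rw [cl_of_not h1.1 h1.2, cl_of_not h2.1 h2.2, cl_of_not h3.1 h3.2]
      have h4 := hd.sgn.one x z h1
      linear_combination (e z y * e z w) * h4
  have h4 : ∀ z, (4 : ℤ) ∣ f z := by
    intro z
    rcases hcase z with h | h | h | ⟨h1, h2, h3⟩
    · simp only [hf, (hzero x z h).1, sub_self, zero_mul, dvd_zero]
    · simp only [hf, (hzero y z h).1, sub_self, zero_mul, mul_zero, dvd_zero]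
    · simp only [hf, (hzero w z h).1, sub_self, zero_mul, mul_zero, dvd_zero]
    · have a1 := hd.sgn.one x z h1
      have a2 := hd.sgn.one z y (Nc_symm hc2 h2)
      have a3 := hd.sgn.one z w (Nc_symm hc2 h3)
      have key : ∀ t : ℤ, t * t = 1 → t = 1 ∨ t = -1 := by
        intro t ht
        have : (t - 1) * (t + 1) = 0 := by linear_combination ht
        rcases mul_eq_zero.1 this with h | h
        · left; linarith
        · right; linarith
      simp only [hf]
      rcases key _ a1 with b1 | b1 <;> rcases key _ a2 with b2 | b2 <;>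
        rcases key _ a3 with b3 | b3 <;> rw [b1, b2, b3, cl_of_not h1.1 h1.2,
          cl_of_not h2.1 h2.2, cl_of_not h3.1 h3.2] <;> norm_num
  have h8 := sum_inv hc2 hfree f hinv h4
  have hsum : ∑ z : X, f z = (Fintype.card X : ℤ) - 6 + 2 * (e x w * e w y) +
      2 * (e x y * e y w) - 2 * (e x y * e x w) := by
    rw [Finset.sum_congr rfl fun z _ => hexp z]
    simp only [Finset.sum_add_distrib, Finset.sum_sub_distrib]
    have s1 : ∀ u : X, ∑ z : X, cl c u z = 2 := by
      intro u
      have := sum_cl (c := c) hfree u (fun _ => 1)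
      simpa using this
    have s2 : ∑ z : X, e x z * e z y = 0 := by
      have := hd.sq x y hxy
      unfold F2 at this
      rw [this, zero_mul]
    have s3 : ∑ z : X, e x z * e z w = 0 := by
      have := hd.sq x w hxw
      unfold F2 at this
      rw [this, zero_mul]
    have s4 : ∑ z : X, e z y * e z w = 0 := by
      have := hd.sq y w hyw
      unfold F2 at this
      rw [zero_mul] at this
      have h5 : ∑ z : X, e z y * e z w = η * ∑ z : X, e y z * e z w := by
        rw [Finset.mul_sum]
        refine Finset.sum_congr rfl fun z _ => ?_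
        rw [hd.flip y z]
        ring
      rw [h5, this, mul_zero]
    rw [s1, s1, s1, s2, s3, s4, sum_cl hfree w (fun z => e x z * e z y),
      sum_cl hfree y (fun z => e x z * e z w), sum_cl hfree x (fun z => e z y * e z w),
      hd.sgn.io.right x w, hd.sgn.io.left w y, hd.sgn.io.right x y, hd.sgn.io.left y w,
      hd.sgn.io.left x y, hd.sgn.io.left x w]
    simp only [Finset.sum_const, Finset.card_univ, nsmul_eq_mul, mul_one]
    ring
  rwa [hsum] at h8

/-- three orbits of `c` -/
lemma exists_three (hX : 4 < Fintype.card X) {x y : X} (hxy : Nc c x y) :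
    ∃ w : X, Nc c x w ∧ Nc c y w := by
  by_contra hcon
  push Not at hcon
  have h1 : (Finset.univ : Finset X) ⊆ {x, c • x, y, c • y} := by
    intro z _
    by_contra hz
    simp only [Finset.mem_insert, Finset.mem_singleton, not_or] at hz
    exact hcon z ⟨hz.1, hz.2.1⟩ ⟨hz.2.2.1, hz.2.2.2⟩
  have h2 := Finset.card_le_card h1
  rw [Finset.card_univ] at h2
  have h3 := Finset.card_le_four (a := x) (b := c • x) (c := y) (d := c • y)
  omega

lemma card_even (hc2 : c * c = 1) (hfree : ∀ x : X, c • x ≠ x) : Even (Fintype.card X) := by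
  obtain ⟨Φ, hΦ⟩ := exists_half (X := X) hc2 hfree
  rw [mem_halves] at hΦ
  have h2 : Φᶜ.card = Φ.card := by
    symm
    refine Finset.card_nbij' (fun x => c • x) (fun x => c • x) ?_ ?_ ?_ ?_
    · intro x hx
      simp only [Finset.coe_compl, Set.mem_compl_iff, Finset.mem_coe] at hx ⊢
      rw [hΦ]
      exact fun h => h hx
    · intro x hx
      simp only [Finset.coe_compl, Set.mem_compl_iff, Finset.mem_coe] at hx ⊢
      exact (hΦ x).2 hx
    · intro x _
      show c • c • x = x
      rw [← mul_smul, hc2, one_smul]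
    · intro x _
      show c • c • x = x
      rw [← mul_smul, hc2, one_smul]
  rw [← Finset.card_add_card_compl Φ, h2]
  exact ⟨_, rfl⟩

lemma card_four (hc2 : c * c = 1) (hfree : ∀ x : X, c • x ≠ x) {x y : X} (hxy : Nc c x y) :
    4 ≤ Fintype.card X := by
  have h1 : ({x, c • x, y, c • y} : Finset X).card = 4 := by
    have hyx := Nc_symm hc2 hxy
    have h3 : x ≠ c • x := fun h => hfree x h.symm
    have h4 : y ≠ c • y := fun h => hfree y h.symm
    have h5 : x ≠ y := fun h => hxy.1 h.symm
    have h6 : x ≠ c • y := hyx.2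
    have h7 : c • x ≠ y := fun h => hxy.2 h.symm
    have h8 : c • x ≠ c • y := fun h => h5 (smul_left_cancel c h)
    rw [Finset.card_insert_of_notMem, Finset.card_insert_of_notMem, Finset.card_pair h4]
    · simp [h7, h8]
    · simp [h3, h5, h6]
  rw [← h1]
  exact Finset.card_le_univ _

lemma pm_one {t : ℤ} (ht : t * t = 1) : t = 1 ∨ t = -1 := by
  have : (t - 1) * (t + 1) = 0 := by linear_combination ht
  rcases mul_eq_zero.1 this with h | h
  · left; linarith
  · right; linarith

/-- conference matrices: the number of points modulo 8 -/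
lemma conference (hc2 : c * c = 1) (hfree : ∀ x : X, c • x ≠ x) {e : X → X → ℤ} {η : ℤ}
    (hd : Data c e η 0) (hX : 4 < Fintype.card X) (hN : ∃ x y : X, Nc c x y) :
    (η = 1 ∧ (8 : ℤ) ∣ (Fintype.card X : ℤ) - 4) ∨ (η = -1 ∧ (8 : ℤ) ∣ (Fintype.card X : ℤ)) := by
  obtain ⟨x, y, hxy⟩ := hN
  obtain ⟨w, hxw, hyw⟩ := exists_three hX hxy
  have h := mod_eight hc2 hfree hd hxy hxw hyw
  rw [hd.flip y w] at h
  rcases pm_one hd.hη with h1 | h1
  · left
    refine ⟨h1, ?_⟩
    rw [h1] at h
    rcases pm_one (hd.sgn.one x y hxy) with b1 | b1 <;>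
      rcases pm_one (hd.sgn.one x w hxw) with b2 | b2 <;>
      rcases pm_one (hd.sgn.one y w hyw) with b3 | b3 <;>
      rw [b1, b2, b3] at h <;> omega
  · right
    refine ⟨h1, ?_⟩
    rw [h1] at h
    rcases pm_one (hd.sgn.one x y hxy) with b1 | b1 <;>
      rcases pm_one (hd.sgn.one x w hxw) with b2 | b2 <;>
      rcases pm_one (hd.sgn.one y w hyw) with b3 | b3 <;>
      rw [b1, b2, b3] at h <;> omega

/-- the invariance of the factor -/
lemma factor_zpowers (hc2 : c * c = 1) (hfree : ∀ x : X, c • x ≠ x) {e : X → X → ℤ}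
    (he : Sgn c e) {s : G → ℤ} (hs : ∀ (x y : X) (g : G), Nc c x y → D c x y g = s g * e x y)
    (hN : ∃ x y : X, Nc c x y) {g g' : G} (h : tau e g = tau e g') : s g = s g' := by
  have h1 : ∀ g : G, s g * ((Fintype.card X : ℤ) * ((Fintype.card X : ℤ) - 2)) =
      2 * (Fintype.card G : ℤ) * tau e g := by
    intro g
    rw [← sum_D hc2 he.io g]
    have h2 : ∀ x y : X, e x y * D c x y g = s g * (e x y * e x y) := by
      intro x y
      by_cases hxy : Nc c x y
      · rw [hs x y g hxy]
        ring
      · rw [he.zero x y hxy]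
        ring
    have h3 : ∀ x : X, ∑ y : X, e x y * D c x y g = s g * ((Fintype.card X : ℤ) - 2) := by
      intro x
      rw [Finset.sum_congr rfl fun y _ => h2 x y, ← Finset.mul_sum, row_sq hfree he]
    rw [Finset.sum_congr rfl fun x _ => h3 x, Finset.sum_const, Finset.card_univ, nsmul_eq_mul]
    ring
  obtain ⟨x, y, hxy⟩ := hN
  have h4 : (4 : ℤ) ≤ Fintype.card X := by exact_mod_cast card_four hc2 hfree hxy
  have h5 : ((Fintype.card X : ℤ) * ((Fintype.card X : ℤ) - 2)) ≠ 0 := by
    apply mul_ne_zero <;> linarith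
  apply mul_right_cancel₀ h5
  rw [h1, h1, h]

/-- all differences are invariant -/
lemma D_zpowers_of (hc : ∀ g, c * g = g * c) (hc2 : c * c = 1)
    (h : ∀ (x y : X) (g g' : G), Nc c x y → Subgroup.zpowers g = Subgroup.zpowers g' →
      D c x y g = D c x y g') (x y : X) (g g' : G)
    (hgg : Subgroup.zpowers g = Subgroup.zpowers g') : D c x y g = D c x y g' := by
  by_cases h1 : y = x
  · rw [h1]
    exact D_self_zpowers hc hc2 hgg x
  · by_cases h2 : y = c • x
    · rw [h2, D_right hc2, D_right hc2, D_self_zpowers hc hc2 hgg x]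
    · exact h x y g g' ⟨h1, h2⟩ hgg

/-- **First theorem.** -/
theorem D_zpowers (hc : ∀ g, c * g = g * c) (hc2 : c * c = 1) (hfree : ∀ x : X, c • x ≠ x)
    (h2 : TwoTrans c X)
    (hX : ¬ 4 ∣ Fintype.card X ∨ (4 < Fintype.card X ∧ ∃ k : ℕ, Fintype.card X = 2 * (k ^ 2 + 1)))
    (x y : X) (g g' : G) (hgg : Subgroup.zpowers g = Subgroup.zpowers g') :
    D c x y g = D c x y g' := by
  refine D_zpowers_of hc hc2 (fun x y g g' hxy hgg => ?_) x y g g' hgg
  rcases dichotomy hc hc2 h2 with h0 | ⟨e, he, s, hs⟩
  · rw [h0 x y g hxy, h0 x y g' hxy]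
  have hN : ∃ x y : X, Nc c x y := ⟨x, y, hxy⟩
  obtain ⟨η, m, hd⟩ := exists_data hc2 h2 he hN
  have hev := card_even (X := X) hc2 hfree
  have h4 := card_four hc2 hfree hxy
  have h4' : 4 < Fintype.card X := by
    rcases hX with h | h
    · omega
    · exact h.1
  have hmod : Fintype.card X % 8 ≠ 0 := by
    rcases hX with h | ⟨-, k, hk⟩
    · omega
    · intro h8
      have h9 : k % 4 = 0 ∨ k % 4 = 1 ∨ k % 4 = 2 ∨ k % 4 = 3 := by omega
      have h10 : k ^ 2 % 4 = 0 ∨ k ^ 2 % 4 = 1 := by
        rcases h9 with h | h | h | h <;> simp [Nat.pow_mod, h]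
      omega
  rcases pm_one hd.hη with h1 | h1
  · subst h1
    have hsq : IsSquare (m ^ 2 + 8 * ((Fintype.card X : ℤ) - 2)) := by
      rcases square_or hfree hd (by omega) with h | h
      · exact h
      · subst h
        rcases hX with h | ⟨-, k, hk⟩
        · exfalso
          rcases conference hc2 hfree hd h4' hN with ⟨-, h5⟩ | ⟨h5, -⟩
          · omega
          · norm_num at h5
        · refine ⟨4 * k, ?_⟩
          rw [hk]
          push_cast
          ring
    rw [hs x y g hxy, hs x y g' hxy,
      factor_zpowers hc2 hfree he hs hN (tau_zpowers hfree hd (by omega) hsq hgg)]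
  · subst h1
    have hm := skew_zero hd hN
    subst hm
    exfalso
    rcases conference hc2 hfree hd h4' hN with ⟨h5, -⟩ | ⟨-, h5⟩
    · norm_num at h5
    · omega

/-- **Second theorem.** -/
theorem D_add_zpowers (hc : ∀ g, c * g = g * c) (hc2 : c * c = 1) (hfree : ∀ x : X, c • x ≠ x)
    (h2 : TwoTrans c X)
    (hX : Fintype.card X % 8 ≠ 4 ∨ ∃ k : ℕ, Fintype.card X = 2 * (k ^ 2 + 1))
    (x y : X) (g g' : G) (hgg : Subgroup.zpowers g = Subgroup.zpowers g') :
    D c x y g + D c y x g = D c x y g' + D c y x g' := by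
  by_cases hxy : Nc c x y
  swap
  · have h1 : ∀ x y : X, ¬ Nc c x y → D c x y g = D c x y g' := by
      intro x y h
      unfold Nc at h
      by_cases h1 : y = x
      · rw [h1]
        exact D_self_zpowers hc hc2 hgg x
      · have h2 : y = c • x := by tauto
        rw [h2, D_right hc2, D_right hc2, D_self_zpowers hc hc2 hgg x]
    rw [h1 x y hxy, h1 y x (fun h => hxy (Nc_symm hc2 h))]
  have hyx := Nc_symm hc2 hxy
  rcases dichotomy hc hc2 h2 with h0 | ⟨e, he, s, hs⟩
  · rw [h0 x y g hxy, h0 x y g' hxy, h0 y x g hyx, h0 y x g' hyx]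
  have hN : ∃ x y : X, Nc c x y := ⟨x, y, hxy⟩
  obtain ⟨η, m, hd⟩ := exists_data hc2 h2 he hN
  have hev := card_even (X := X) hc2 hfree
  have h4 := card_four hc2 hfree hxy
  rcases pm_one hd.hη with h1 | h1
  · subst h1
    have hsq : IsSquare (m ^ 2 + 8 * ((Fintype.card X : ℤ) - 2)) := by
      rcases square_or hfree hd (by omega) with h | h
      · exact h
      · subst h
        rcases hX with h | ⟨k, hk⟩
        · exfalso
          have h4' : 4 < Fintype.card X := by
            rcases Nat.lt_or_ge 4 (Fintype.card X) with h5 | h5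
            · exact h5
            · exfalso
              have h6 : Fintype.card X = 4 := by omega
              omega
          rcases conference hc2 hfree hd h4' hN with ⟨-, h5⟩ | ⟨h5, -⟩
          · omega
          · norm_num at h5
        · refine ⟨4 * k, ?_⟩
          rw [hk]
          push_cast
          ring
    rw [hs x y g hxy, hs x y g' hxy, hs y x g hyx, hs y x g' hyx,
      factor_zpowers hc2 hfree he hs hN (tau_zpowers hfree hd (by omega) hsq hgg)]
  · subst h1
    rw [hs x y g hxy, hs x y g' hxy, hs y x g hyx, hs y x g' hyx, hd.flip x y]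
    ring

/-- **Third theorem**: there is a character on the points. -/
theorem D_zpowers_char (hc : ∀ g, c * g = g * c) (hc2 : c * c = 1) (hfree : ∀ x : X, c • x ≠ x)
    (h2 : TwoTrans c X) (κ : X → ℤ) (hκ1 : ∀ x, κ x * κ x = 1) (hκc : ∀ x, κ (c • x) = -κ x)
    (hκ : ∀ (k : G) (x y : X), κ (k • x) * κ (k • y) = κ x * κ y)
    (x y : X) (g g' : G) (hgg : Subgroup.zpowers g = Subgroup.zpowers g') :
    D c x y g = D c x y g' := by
  refine D_zpowers_of hc hc2 (fun x y g g' hxy hgg => ?_) x y g g' hgg
  rcases dichotomy hc hc2 h2 with h0 | ⟨e, he, s, hs⟩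
  · rw [h0 x y g hxy, h0 x y g' hxy]
  have hN : ∃ x y : X, Nc c x y := ⟨x, y, hxy⟩
  obtain ⟨η, m, hd⟩ := exists_data hc2 h2 he hN
  have h4 := card_four hc2 hfree hxy
  have hF : InvOdd c (fun x y : X => κ x * κ y) :=
    ⟨fun k x y => hκ k x y, fun x y => by simp only [hκc]; ring, fun x y => by simp only [hκc]; ring⟩
  obtain ⟨m0, hm0⟩ := exists_mul h2 he hF
  -- `e x y = m0 κ x κ y`
  have hm1 : m0 * m0 = 1 := by
    have h5 : κ x * κ y = m0 * e x y := hm0 x y hxy
    have h6 := he.one x y hxy
    have h7 : (κ x * κ y) * (κ x * κ y) = 1 := by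
      have h8 := hκ1 x
      have h9 := hκ1 y
      calc (κ x * κ y) * (κ x * κ y) = (κ x * κ x) * (κ y * κ y) := by ring
        _ = 1 := by rw [h8, h9, one_mul]
    rw [h5] at h7
    linear_combination h7 - (m0 * m0) * h6
  have heq : ∀ x y : X, Nc c x y → e x y = m0 * (κ x * κ y) := by
    intro x y h
    have h5 : κ x * κ y = m0 * e x y := hm0 x y h
    rw [h5, ← mul_assoc, hm1, one_mul]
  have hη1 : η = 1 := by
    have h5 := hd.flip x y
    rw [heq x y hxy, heq y x (Nc_symm hc2 hxy)] at h5
    have h7 : (m0 * (κ x * κ y)) * (m0 * (κ x * κ y)) = 1 := by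
      rw [← heq x y hxy]
      exact he.one x y hxy
    have h8 : m0 * (κ y * κ x) = m0 * (κ x * κ y) := by ring
    rw [h8] at h5
    have h9 : (η - 1) * ((m0 * (κ x * κ y)) * (m0 * (κ x * κ y))) = 0 := by
      linear_combination (-(m0 * (κ x * κ y))) * h5
    rw [h7, mul_one] at h9
    linarith
  subst hη1
  have hm : m = m0 * ((Fintype.card X : ℤ) - 4) := by
    have h5 := hd.sq x y hxy
    have h6 : F2 e x y = κ x * κ y * ((Fintype.card X : ℤ) - 4) := by
      unfold F2
      have h7 : ∀ z : X, e x z * e z y = κ x * κ y * (1 - cl c x z - cl c y z) := by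
        intro z
        by_cases h8 : z = x ∨ z = c • x
        · have h9 : e x z = 0 := by
            rcases h8 with rfl | rfl
            · exact he.zero _ _ (fun h => h.1 rfl)
            · exact he.zero _ _ (fun h => h.2 rfl)
          have h10 : cl c x z = 1 := by
            rcases h8 with rfl | rfl
            · exact cl_self hfree _
            · exact cl_c hfree _
          have h11 : cl c y z = 0 := by
            have hyx := Nc_symm hc2 hxy
            rcases h8 with rfl | rfl
            · exact cl_of_not hyx.1 hyx.2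
            · have := (Nc_right hc2 y x).2 hyx
              exact cl_of_not this.1 this.2
          rw [h9, h10, h11]
          ring
        · by_cases h12 : z = y ∨ z = c • y
          · have h9 : e z y = 0 := by
              rcases h12 with rfl | rfl
              · exact he.zero _ _ (fun h => h.1 rfl)
              · refine he.zero _ _ (fun h => h.2 ?_)
                rw [← mul_smul, hc2, one_smul]
            have h10 : cl c y z = 1 := by
              rcases h12 with rfl | rfl
              · exact cl_self hfree _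
              · exact cl_c hfree _
            have h11 : cl c x z = 0 := by
              rcases h12 with rfl | rfl
              · exact cl_of_not hxy.1 hxy.2
              · have := (Nc_right hc2 x y).2 hxy
                exact cl_of_not this.1 this.2
            rw [h9, h10, h11]
            ring
          · push Not at h8 h12
            have hxz : Nc c x z := h8
            have hyz : Nc c y z := h12
            rw [cl_of_not h8.1 h8.2, cl_of_not h12.1 h12.2, heq x z hxz,
              heq z y (Nc_symm hc2 hyz)]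
            have h13 := hκ1 z
            linear_combination (κ x * κ y * m0 * m0) * h13 + (κ x * κ y) * hm1
      rw [Finset.sum_congr rfl fun z _ => h7 z, ← Finset.mul_sum, Finset.sum_sub_distrib,
        Finset.sum_sub_distrib]
      have s1 : ∀ u : X, ∑ z : X, cl c u z = 2 := by
        intro u
        have := sum_cl (c := c) hfree u (fun _ => 1)
        simpa using this
      rw [s1, s1]
      simp only [Finset.sum_const, Finset.card_univ, nsmul_eq_mul, mul_one]
      ring
    rw [h6] at h5
    have h14 : κ x * κ y = m0 * e x y := hm0 x y hxy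
    rw [h14] at h5
    have h15 := he.one x y hxy
    have h16 : (m0 * ((Fintype.card X : ℤ) - 4) - m) * (e x y * e x y) = 0 := by
      linear_combination (e x y) * h5
    rw [h15, mul_one] at h16
    linarith
  have hsq : IsSquare (m ^ 2 + 8 * ((Fintype.card X : ℤ) - 2)) := by
    refine ⟨(Fintype.card X : ℤ), ?_⟩
    rw [hm]
    linear_combination ((Fintype.card X : ℤ) - 4) ^ 2 * hm1
  rw [hs x y g hxy, hs x y g' hxy,
    factor_zpowers hc2 hfree he hs hN (tau_zpowers hfree hd (by omega) hsq hgg)]

end Pool.Agent.V7H4.CT
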