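import Pool.Agent.V7H4.CT.Dd

/-!
# Three-transitive actions
-/

set_option autoImplicit false

open scoped Classical
open Matrix

namespace Pool.Agent.V7H4.CT

open Pool.Agent.Q11.CZ Pool.Agent.N770.CP

set_option linter.unusedSectionVars false

variable {G : Type} [Group G] [Fintype G] {X : Type} [Fintype X] [MulAction G X] {c : G}

/-- `G` acts three-transitively on the orbits of `c` -/
def ThreeTrans (c : G) (X : Type) [MulAction G X] : Prop :=
  ∀ x y w x' y' w' : X, Nc c x y → Nc c x w → Nc c y w → Nc c x' y' → Nc c x' w' → Nc c y' w' →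
    ∃ g : G, (g • x = x' ∨ g • x = c • x') ∧ (g • y = y' ∨ g • y = c • y') ∧
      (g • w = w' ∨ g • w = c • w')

lemma two_of_three (h3 : ThreeTrans c X) (hX : 4 < Fintype.card X) : TwoTrans c X := by
  intro x y x' y' h h'
  obtain ⟨w, hw1, hw2⟩ := exists_three hX h
  obtain ⟨w', hw1', hw2'⟩ := exists_three hX h'
  obtain ⟨g, h4, h5, -⟩ := h3 x y w x' y' w' h hw1 hw2 h' hw1' hw2'
  exact ⟨g, h4, h5⟩

/-- constant triple products -/
lemma square_of_triple (hc2 : c * c = 1) (hfree : ∀ x : X, c • x ≠ x) {e : X → X → ℤ} {m t : ℤ}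
    (hd : Data c e 1 m) (hN : ∃ x y : X, Nc c x y) (ht : t * t = 1)
    (h : ∀ x z y : X, Nc c x z → Nc c z y → Nc c x y → e x z * e z y = t * e x y) :
    IsSquare (m ^ 2 + 8 * ((Fintype.card X : ℤ) - 2)) := by
  obtain ⟨x, y, hxy⟩ := hN
  have hyx := Nc_symm hc2 hxy
  have h5 := hd.sq x y hxy
  have h6 : F2 e x y = t * e x y * ((Fintype.card X : ℤ) - 4) := by
    unfold F2
    have h7 : ∀ z : X, e x z * e z y = t * e x y * (1 - cl c x z - cl c y z) := by
      intro z
      by_cases h8 : z = x ∨ z = c • x
      · have h9 : e x z = 0 := by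
          rcases h8 with rfl | rfl
          · exact hd.sgn.zero _ _ (fun h => h.1 rfl)
          · exact hd.sgn.zero _ _ (fun h => h.2 rfl)
        have h10 : cl c x z = 1 := by
          rcases h8 with rfl | rfl
          · exact cl_self hfree _
          · exact cl_c hfree _
        have h11 : cl c y z = 0 := by
          rcases h8 with rfl | rfl
          · exact cl_of_not hyx.1 hyx.2
          · have := (Nc_right hc2 y x).2 hyx
            exact cl_of_not this.1 this.2
        rw [h9, h10, h11]
        ring
      · by_cases h12 : z = y ∨ z = c • y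
        · have h9 : e z y = 0 := by
            rcases h12 with rfl | rfl
            · exact hd.sgn.zero _ _ (fun h => h.1 rfl)
            · refine hd.sgn.zero _ _ (fun h => h.2 ?_)
              rw [← mul_smul, hc2, one_smul]
          have h10 : cl c y z = 1 := by
            rcases h12 with rfl | rfl
            · exact cl_self hfree _
            · exact cl_c hfree _
          have h11 : cl c x z = 0 := by
            rcases h12 with rfl | rfl
            · exact cl_of_not hxy.1 hxy.2
            · have := (Nc_right hc2 x y).2 hxy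
              exact cl_of_not this.1 this.2
          rw [h9, h10, h11]
          ring
        · push Not at h8 h12
          have hxz : Nc c x z := h8
          have hyz : Nc c y z := h12
          rw [cl_of_not h8.1 h8.2, cl_of_not h12.1 h12.2, h x z y hxz (Nc_symm hc2 hyz) hxy]
          ring
    rw [Finset.sum_congr rfl fun z _ => h7 z, ← Finset.mul_sum, Finset.sum_sub_distrib,
      Finset.sum_sub_distrib]
    have s1 : ∀ u : X, ∑ z : X, cl c u z = 2 := by
      intro u
      have := sum_cl (c := c) hfree u (fun _ => 1)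
      simpa using this
    rw [s1, s1]
    simp only [Finset.sum_const, Finset.card_univ, nsmul_eq_mul, mul_one]
    ring
  rw [h6] at h5
  have h15 := hd.sgn.one x y hxy
  have h16 : (t * ((Fintype.card X : ℤ) - 4) - m) * (e x y * e x y) = 0 := by
    linear_combination (e x y) * h5
  rw [h15, mul_one] at h16
  have hm : m = t * ((Fintype.card X : ℤ) - 4) := by linarith
  refine ⟨(Fintype.card X : ℤ), ?_⟩
  rw [hm]
  linear_combination ((Fintype.card X : ℤ) - 4) ^ 2 * ht

/-- **Fourth theorem**: three-transitive actions. -/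
theorem D_zpowers_three (hc : ∀ g, c * g = g * c) (hc2 : c * c = 1) (hfree : ∀ x : X, c • x ≠ x)
    (h3 : ThreeTrans c X) (hX : 4 < Fintype.card X)
    (x y : X) (g g' : G) (hgg : Subgroup.zpowers g = Subgroup.zpowers g') :
    D c x y g = D c x y g' := by
  have h2 := two_of_three h3 hX
  refine D_zpowers_of hc hc2 (fun x y g g' hxy hgg => ?_) x y g g' hgg
  rcases dichotomy hc hc2 h2 with h0 | ⟨e, he, s, hs⟩
  · rw [h0 x y g hxy, h0 x y g' hxy]
  have hN : ∃ x y : X, Nc c x y := ⟨x, y, hxy⟩
  obtain ⟨η, m, hd⟩ := exists_data hc2 h2 he hN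
  obtain ⟨w, hxw, hyw⟩ := exists_three hX hxy
  -- the triple product is constant
  have htr : ∀ x' y' w' : X, Nc c x' y' → Nc c x' w' → Nc c y' w' →
      e x' y' * e y' w' * e w' x' = e x y * e y w * e w x := by
    intro x' y' w' h1 h4 h5
    obtain ⟨k, h6, h7, h8⟩ := h3 x y w x' y' w' hxy hxw hyw h1 h4 h5
    have h9 : e (k • x) (k • y) * e (k • y) (k • w) * e (k • w) (k • x) =
        e x y * e y w * e w x := by rw [he.io.inv, he.io.inv, he.io.inv]
    rw [← h9]
    rcases h6 with h6 | h6 <;> rcases h7 with h7 | h7 <;> rcases h8 with h8 | h8 <;>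
      rw [h6, h7, h8] <;> simp only [he.io.left, he.io.right] <;> ring
  set t := e x y * e y w * e w x with htdef
  have a1 := he.one x y hxy
  have a2 := he.one y w hyw
  have a3 := he.one w x (Nc_symm hc2 hxw)
  have htt : t * t = 1 := by
    calc t * t = (e x y * e x y) * (e y w * e y w) * (e w x * e w x) := by rw [htdef]; ring
      _ = 1 := by rw [a1, a2, a3]; norm_num
  have hη : η = 1 := by
    have h4 := htr y x w (Nc_symm hc2 hxy) hyw hxw
    rw [hd.flip x y, hd.flip w x, hd.flip y w] at h4
    have h5 : η * η * η * t = t := by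
      rw [htdef]
      linear_combination h4
    rw [hd.hη, one_mul] at h5
    have h6 : (η - 1) * (t * t) = 0 := by linear_combination t * h5
    rw [htt, mul_one] at h6
    linarith
  subst hη
  have hsq := square_of_triple hc2 hfree hd hN htt (by
    intro x' z' y' h4 h5 h6
    have h7 := htr x' z' y' h4 h6 h5
    have h8 := hd.flip x' y'
    rw [one_mul] at h8
    rw [h8] at h7
    have h9 := he.one x' y' h6
    linear_combination (e x' y') * h7 - (e x' z' * e z' y') * h9)
  have h4 : 4 ≤ Fintype.card X := hX.le
  rw [hs x y g hxy, hs x y g' hxy,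
    factor_zpowers hc2 hfree he hs hN (tau_zpowers hfree hd (by omega) hsq hgg)]

end Pool.Agent.V7H4.CT
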