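import Pool.Agent.V7H4.CT.Ee
import Pool.Agent.N770.CP.Fields2

/-!
# CM fields whose maximal real subfield has a two-transitive Galois group
-/

set_option autoImplicit false

open scoped Classical
open NumberField

namespace Pool.Agent.V7H4.CT

open Pool.Agent.Results.MP_a2beea_nt.AveragedAndAbelian Pool.Agent.N770.CP

variable {E K : Type} [Field E] [NumberField E] [Field K] [NumberField K]

/-- restriction of embeddings to the maximal real subfield -/
noncomputable def res (x : E →ₐ[ℚ] K) : maximalRealSubfield E →ₐ[ℚ] K :=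
  x.comp (IsScalarTower.toAlgHom ℚ (maximalRealSubfield E) E)

lemma res_smul (g : K ≃ₐ[ℚ] K) (x : E →ₐ[ℚ] K) : res (g • x) = (g : K →ₐ[ℚ] K).comp (res x) := rfl

lemma res_apply (x : E →ₐ[ℚ] K) (t : maximalRealSubfield E) : res x t = x (t : E) := rfl

section cm

variable [IsCMField E] [IsCMField K]

lemma smul_apply' (g : K ≃ₐ[ℚ] K) (x : E →ₐ[ℚ] K) (t : E) : (g • x) t = g (x t) := rfl

lemma conj_smul_apply (x : E →ₐ[ℚ] K) (t : E) : (conjugation K • x) t = x (conjugation E t) :=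
  (emb_conj' x t).symm

lemma res_conj (x : E →ₐ[ℚ] K) : res (conjugation K • x) = res x := by
  apply AlgHom.ext
  intro t
  rw [res_apply, res_apply, conj_smul_apply, (conj_fix_iff _).2 t.2]

lemma eq_or_of_res {x y : E →ₐ[ℚ] K} (h : res x = res y) : y = x ∨ y = conjugation K • x := by
  have hF : ∀ t : E, t ∈ maximalRealSubfield E → y t = x t := fun t ht => by
    have := congrArg (fun f : maximalRealSubfield E →ₐ[ℚ] K => f ⟨t, ht⟩) h
    exact this.symm
  have htwo : ∀ t : E, y t = x t ∨ y t = x (conjugation E t) := by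
    intro t
    have h1 : y (t + conjugation E t) = x (t + conjugation E t) := by
      refine hF _ ((conj_fix_iff _).mp ?_)
      rw [map_add, conj_conj, add_comm]
    have h2 : y (t * conjugation E t) = x (t * conjugation E t) := by
      refine hF _ ((conj_fix_iff _).mp ?_)
      rw [map_mul, conj_conj, mul_comm]
    rw [map_add, map_add] at h1
    rw [map_mul, map_mul] at h2
    have h3 : (y t - x t) * (y t - x (conjugation E t)) = 0 := by
      have h4 : y (conjugation E t) = x t + x (conjugation E t) - y t := by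
        rw [← h1]; ring
      rw [h4] at h2
      linear_combination -h2
    rcases mul_eq_zero.mp h3 with h | h
    · exact Or.inl (sub_eq_zero.mp h)
    · exact Or.inr (sub_eq_zero.mp h)
  by_cases hall : ∀ t, y t = x t
  · left
    exact AlgHom.ext hall
  · right
    push Not at hall
    obtain ⟨t0, ht0⟩ := hall
    have h0 : y t0 = x (conjugation E t0) := (htwo t0).resolve_left ht0
    apply AlgHom.ext
    intro t
    rw [conj_smul_apply]
    rcases htwo t with h1 | h1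
    · rcases htwo (t + t0) with h2 | h2
      · exfalso
        apply ht0
        rw [map_add, map_add, h1] at h2
        exact add_left_cancel h2
      · rw [map_add, map_add, map_add, h0] at h2
        exact add_right_cancel h2
    · exact h1

lemma nc_iff (x y : E →ₐ[ℚ] K) : Nc (conjugation K) x y ↔ res x ≠ res y := by
  constructor
  · rintro ⟨h1, h2⟩ h
    rcases eq_or_of_res h with h3 | h3
    · exact h1 h3
    · exact h2 h3
  · intro h
    refine ⟨fun h1 => h (by rw [h1]), fun h1 => h ?_⟩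
    rw [h1, res_conj]

lemma eq_or_of_comp {g : K ≃ₐ[ℚ] K} {x x' : E →ₐ[ℚ] K}
    (h : (g : K →ₐ[ℚ] K).comp (res x) = res x') : g • x = x' ∨ g • x = conjugation K • x' := by
  rw [← res_smul] at h
  exact eq_or_of_res h.symm

/-- the Galois group of `K` acts two-transitively on the embeddings of `F` into `K` -/
def Two (F K : Type) [Field F] [NumberField F] [Field K] [NumberField K] : Prop :=
  ∀ σ τ σ' τ' : F →ₐ[ℚ] K, σ ≠ τ → σ' ≠ τ' →
    ∃ g : K ≃ₐ[ℚ] K, (g : K →ₐ[ℚ] K).comp σ = σ' ∧ (g : K →ₐ[ℚ] K).comp τ = τ'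

/-- the Galois group of `K` acts three-transitively on the embeddings of `F` into `K` -/
def Three (F K : Type) [Field F] [NumberField F] [Field K] [NumberField K] : Prop :=
  ∀ σ τ υ σ' τ' υ' : F →ₐ[ℚ] K, σ ≠ τ → σ ≠ υ → τ ≠ υ → σ' ≠ τ' → σ' ≠ υ' → τ' ≠ υ' →
    ∃ g : K ≃ₐ[ℚ] K, (g : K →ₐ[ℚ] K).comp σ = σ' ∧ (g : K →ₐ[ℚ] K).comp τ = τ' ∧
      (g : K →ₐ[ℚ] K).comp υ = υ'

lemma twoTrans_of (h : Two (maximalRealSubfield E) K) :
    TwoTrans (conjugation K) (E →ₐ[ℚ] K) := by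
  intro x y x' y' h1 h2
  obtain ⟨g, h3, h4⟩ := h (res x) (res y) (res x') (res y') ((nc_iff x y).1 h1)
    ((nc_iff x' y').1 h2)
  exact ⟨g, eq_or_of_comp h3, eq_or_of_comp h4⟩

lemma threeTrans_of (h : Three (maximalRealSubfield E) K) :
    ThreeTrans (conjugation K) (E →ₐ[ℚ] K) := by
  intro x y w x' y' w' h1 h2 h3 h1' h2' h3'
  obtain ⟨g, h4, h5, h6⟩ := h (res x) (res y) (res w) (res x') (res y') (res w')
    ((nc_iff x y).1 h1) ((nc_iff x w).1 h2) ((nc_iff y w).1 h3)
    ((nc_iff x' y').1 h1') ((nc_iff x' w').1 h2') ((nc_iff y' w').1 h3')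
  exact ⟨g, eq_or_of_comp h4, eq_or_of_comp h5, eq_or_of_comp h6⟩

end cm

/-- the number of embeddings -/
lemma card_emb {F : Type} [Field F] [NumberField F] [IsGalois ℚ K] (ψ : F →ₐ[ℚ] K) :
    Nat.card (F →ₐ[ℚ] K) = Module.finrank ℚ F := by
  refine AlgHom.natCard_of_splits ℚ F K (fun x => ?_)
  have h1 : minpoly ℚ x = minpoly ℚ (ψ x) := (minpoly.algHom_eq ψ ψ.injective x).symm
  rw [h1]
  exact Normal.splits inferInstance (ψ x)

variable [IsGalois ℚ K] [IsCMField E] [IsCMField K]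

lemma finrank_real : Module.finrank ℚ E = 2 * Module.finrank ℚ (maximalRealSubfield E) := by
  have h1 := Module.finrank_mul_finrank ℚ (maximalRealSubfield E) E
  rw [← h1, Algebra.IsQuadraticExtension.finrank_eq_two (maximalRealSubfield E) E, mul_comm]

lemma a0_mem {Φ : Finset (E →ₐ[ℚ] K)} (hΦ : IsCMType Φ) (ψ : E →ₐ[ℚ] K)
    (hD : ∀ (y : E →ₐ[ℚ] K) (g g' : K ≃ₐ[ℚ] K), Subgroup.zpowers g = Subgroup.zpowers g' →
      D (conjugation K) ψ y g = D (conjugation K) ψ y g') : a0 ψ Φ ∈ avgSpan K := by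
  refine ((result K).1 _).mpr ⟨a0_cm ψ hΦ, ?_⟩
  rw [a0_eq]
  have hz : Pool.Agent.Q11.CZ.ZInv (Pool.Agent.Q11.CZ.a0 ψ Φ : (K ≃ₐ[ℚ] K) → ℚ) :=
    zinv_a0_of Pool.Agent.Q11.CZ.conj_comm Pool.Agent.Q11.CZ.conj_mul_self ψ (isHalf hΦ) hD
  exact hz

lemma height_mem {Φ : Finset (E →ₐ[ℚ] K)} (hΦ : IsCMType Φ)
    (hD : ∀ (x y : E →ₐ[ℚ] K) (g g' : K ≃ₐ[ℚ] K), Subgroup.zpowers g = Subgroup.zpowers g' →
      D (conjugation K) x y g + D (conjugation K) y x g =
        D (conjugation K) x y g' + D (conjugation K) y x g') : heightFn Φ ∈ avgSpan K := by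
  refine ((result K).1 _).mpr ⟨height_cm hΦ, ?_⟩
  rw [heightFn_eq]
  have hz : Pool.Agent.Q11.CZ.ZInv (Pool.Agent.Q11.CZ.T Φ : (K ≃ₐ[ℚ] K) → ℚ) :=
    zinv_T_of Pool.Agent.Q11.CZ.conj_comm Pool.Agent.Q11.CZ.conj_mul_self (isHalf hΦ) hD
  exact hz

/-- a square root of a negative integer gives a character on the embeddings -/
lemma exists_kappa (ψ₀ : E →ₐ[ℚ] K) {d : ℕ} (hd : 0 < d) {t : E} (ht : t ^ 2 = -(d : E)) :
    ∃ κ : (E →ₐ[ℚ] K) → ℤ, (∀ x, κ x * κ x = 1) ∧ (∀ x, κ (conjugation K • x) = -κ x) ∧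
      ∀ (k : K ≃ₐ[ℚ] K) (x y : E →ₐ[ℚ] K), κ (k • x) * κ (k • y) = κ x * κ y := by
  have hd0 : (d : K) ≠ 0 := by exact_mod_cast hd.ne'
  set s : K := ψ₀ t with hs
  have hsq : ∀ x : E →ₐ[ℚ] K, (x t) ^ 2 = -(d : K) := by
    intro x
    rw [← map_pow, ht, map_neg, map_natCast]
  have hs2 : s ^ 2 = -(d : K) := hsq ψ₀
  have hs0 : s ≠ 0 := by
    intro h
    rw [h] at hs2
    apply hd0
    have : (0 : K) = -(d : K) := by rw [← hs2]; ring
    exact (neg_eq_zero.1 this.symm)
  have hpm : ∀ x : E →ₐ[ℚ] K, x t = s ∨ x t = -s := by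
    intro x
    exact sq_eq_sq_iff_eq_or_eq_neg.1 (by rw [hsq x, hs2])
  have hne : s ≠ -s := by
    intro h
    have h1 : (2 : K) * s = 0 := by linear_combination h
    rcases mul_eq_zero.1 h1 with h2 | h2
    · norm_num at h2
    · exact hs0 h2
  have hconj : conjugation E t = -t := by
    have h1 : (conjugation E t) ^ 2 = t ^ 2 := by
      rw [← map_pow, ht, map_neg, map_natCast]
    rcases sq_eq_sq_iff_eq_or_eq_neg.1 h1 with h2 | h2
    · exfalso
      obtain ⟨φ⟩ : Nonempty (E →+* ℂ) := inferInstance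
      have h3 := Pool.Agent.Q11.CZ.emb_conj φ t
      have h4 : φ (conjugation E t) = starRingEnd ℂ (φ t) := h3
      rw [h2] at h4
      have h5 : (φ t).im = 0 := Complex.conj_eq_iff_im.1 h4.symm
      have h6 : (φ t) ^ 2 = -(d : ℂ) := by rw [← map_pow, ht, map_neg, map_natCast]
      have h7 := congrArg Complex.re h6
      rw [pow_two, Complex.mul_re, h5] at h7
      simp only [mul_zero, sub_zero, Complex.neg_re, Complex.natCast_re] at h7
      have h8 : (0 : ℝ) < d := by exact_mod_cast hd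
      nlinarith [mul_self_nonneg (φ t).re]
    · exact h2
  set κ : (E →ₐ[ℚ] K) → ℤ := fun x => if x t = s then 1 else -1 with hκ
  have hval : ∀ x, x t = (κ x : K) * s := by
    intro x
    simp only [hκ]
    rcases hpm x with h | h
    · rw [if_pos h, h]
      push_cast
      ring
    · rw [if_neg (by rw [h]; exact fun h' => hne h'.symm), h]
      push_cast
      ring
  have hone : ∀ x, κ x * κ x = 1 := by
    intro x
    simp only [hκ]
    split_ifs <;> norm_num
  refine ⟨κ, hone, ?_, ?_⟩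
  · intro x
    have h1 : (conjugation K • x) t = -(x t) := by
      rw [conj_smul_apply, hconj, map_neg]
    simp only [hκ]
    rw [h1]
    rcases hpm x with h | h
    · rw [h, if_pos rfl, if_neg (fun h' => hne h'.symm)]
    · rw [h, neg_neg, if_pos rfl, if_neg (fun h' => hne h'.symm)]
      norm_num
  · intro k x y
    have h1 : ∀ x : E →ₐ[ℚ] K, (κ (k • x) : K) * s = (κ x : K) * k s := by
      intro x
      rw [← hval (k • x), smul_apply', hval x, map_mul, map_intCast]
    have h2 : ((κ (k • x) * κ (k • y) : ℤ) : K) * s ^ 2 = ((κ x * κ y : ℤ) : K) * s ^ 2 := by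
      have h3 : (k s) ^ 2 = s ^ 2 := by rw [← map_pow, hs2, map_neg, map_natCast]
      push_cast
      calc (κ (k • x) : K) * κ (k • y) * s ^ 2 = ((κ (k • x) : K) * s) * ((κ (k • y) : K) * s) := by
            ring
        _ = ((κ x : K) * k s) * ((κ y : K) * k s) := by rw [h1, h1]
        _ = (κ x : K) * κ y * (k s) ^ 2 := by ring
        _ = (κ x : K) * κ y * s ^ 2 := by rw [h3]
    have h3 := mul_right_cancel₀ (pow_ne_zero 2 hs0) h2
    exact_mod_cast h3

/-- **Main theorem for the functions `a⁰`.** -/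
theorem a0_main (hne : Nonempty (E →ₐ[ℚ] K)) (h2 : Two (maximalRealSubfield E) K)
    (h : Odd (Module.finrank ℚ (maximalRealSubfield E)) ∨
      (2 < Module.finrank ℚ (maximalRealSubfield E) ∧
        ∃ k : ℕ, Module.finrank ℚ (maximalRealSubfield E) = k ^ 2 + 1) ∨
      (2 < Module.finrank ℚ (maximalRealSubfield E) ∧ Three (maximalRealSubfield E) K) ∨
      ∃ (d : ℕ) (t : E), 0 < d ∧ t ^ 2 = -(d : E))
    {Φ : Finset (E →ₐ[ℚ] K)} (hΦ : IsCMType Φ) (ψ : E →ₐ[ℚ] K) : a0 ψ Φ ∈ avgSpan K := by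
  obtain ⟨ψ₀⟩ := hne
  have hF : Fintype (E →ₐ[ℚ] K) := Fintype.ofFinite _
  have hcard : Fintype.card (E →ₐ[ℚ] K) = 2 * Module.finrank ℚ (maximalRealSubfield E) := by
    rw [← Nat.card_eq_fintype_card, card_emb ψ₀, finrank_real]
  have h2' := twoTrans_of h2
  refine a0_mem hΦ ψ (fun y g g' hgg => ?_)
  rcases h with h | ⟨h, k, hk⟩ | ⟨h, h3⟩ | ⟨d, t, hd, ht⟩
  · refine D_zpowers Pool.Agent.Q11.CZ.conj_comm Pool.Agent.Q11.CZ.conj_mul_self conj_free h2'
      (Or.inl ?_) ψ y g g' hgg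
    rw [hcard]
    obtain ⟨r, hr⟩ := h
    omega
  · refine D_zpowers Pool.Agent.Q11.CZ.conj_comm Pool.Agent.Q11.CZ.conj_mul_self conj_free h2'
      (Or.inr ⟨?_, k, ?_⟩) ψ y g g' hgg
    · rw [hcard]
      omega
    · rw [hcard, hk]
  · refine D_zpowers_three Pool.Agent.Q11.CZ.conj_comm Pool.Agent.Q11.CZ.conj_mul_self conj_free
      (threeTrans_of h3) ?_ ψ y g g' hgg
    rw [hcard]
    omega
  · obtain ⟨κ, k1, k2, k3⟩ := exists_kappa ψ₀ hd ht
    exact D_zpowers_char Pool.Agent.Q11.CZ.conj_comm Pool.Agent.Q11.CZ.conj_mul_self conj_free h2'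
      κ k1 k2 k3 ψ y g g' hgg

/-- **Main theorem for the heights.** -/
theorem height_main (hne : Nonempty (E →ₐ[ℚ] K)) (h2 : Two (maximalRealSubfield E) K)
    (h : Module.finrank ℚ (maximalRealSubfield E) % 4 ≠ 2 ∨
      ∃ k : ℕ, Module.finrank ℚ (maximalRealSubfield E) = k ^ 2 + 1)
    {Φ : Finset (E →ₐ[ℚ] K)} (hΦ : IsCMType Φ) : heightFn Φ ∈ avgSpan K := by
  obtain ⟨ψ₀⟩ := hne
  have hF : Fintype (E →ₐ[ℚ] K) := Fintype.ofFinite _
  have hcard : Fintype.card (E →ₐ[ℚ] K) = 2 * Module.finrank ℚ (maximalRealSubfield E) := by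
    rw [← Nat.card_eq_fintype_card, card_emb ψ₀, finrank_real]
  have h2' := twoTrans_of h2
  refine height_mem hΦ (fun x y g g' hgg => ?_)
  refine D_add_zpowers Pool.Agent.Q11.CZ.conj_comm Pool.Agent.Q11.CZ.conj_mul_self conj_free h2'
    ?_ x y g g' hgg
  rcases h with h | ⟨k, hk⟩
  · left
    rw [hcard]
    omega
  · right
    exact ⟨k, by rw [hcard, hk]⟩

end Pool.Agent.V7H4.CT
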