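import Pool.Agent.V7H4.CT.Ff

/-!
# Cubic fields which are not Galois: the Galois group acts two-transitively
-/

set_option autoImplicit false

open scoped Classical
open NumberField

namespace Pool.Agent.V7H4.CT

open Pool.Agent.Results.MP_a2beea_nt.AveragedAndAbelian Pool.Agent.N770.CP

variable {F K : Type} [Field F] [NumberField F] [Field K] [NumberField K] [IsGalois ℚ K]

/-- if all automorphisms which fix `σ` fix `τ`, then `τ(F) ≤ σ(F)` -/
lemma range_le {σ τ : F →ₐ[ℚ] K}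
    (h : ∀ g : K ≃ₐ[ℚ] K, (g : K →ₐ[ℚ] K).comp σ = σ → (g : K →ₐ[ℚ] K).comp τ = τ) :
    τ.fieldRange ≤ σ.fieldRange := by
  intro y hy
  rw [← IsGalois.fixedField_fixingSubgroup σ.fieldRange, IntermediateField.mem_fixedField_iff]
  intro g hg
  rw [IntermediateField.mem_fixingSubgroup_iff] at hg
  have h1 : (g : K →ₐ[ℚ] K).comp σ = σ := by
    apply AlgHom.ext
    intro t
    exact hg _ ⟨t, rfl⟩
  obtain ⟨t, ht⟩ := hy
  have h2 := congrArg (fun f : F →ₐ[ℚ] K => f t) (h g h1)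
  have h3 : g (τ t) = τ t := h2
  have h4 : τ t = y := ht
  rw [h4] at h3
  exact h3

lemma range_eq {σ τ : F →ₐ[ℚ] K} (h : τ.fieldRange ≤ σ.fieldRange) :
    τ.fieldRange = σ.fieldRange := by
  refine IntermediateField.eq_of_le_of_finrank_eq h ?_
  have e1 : Module.finrank ℚ τ.fieldRange = Module.finrank ℚ F :=
    (LinearEquiv.finrank_eq (AlgEquiv.ofInjectiveField τ : F ≃ₐ[ℚ] τ.range).toLinearEquiv).symm
  have e2 : Module.finrank ℚ σ.fieldRange = Module.finrank ℚ F :=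
    (LinearEquiv.finrank_eq (AlgEquiv.ofInjectiveField σ : F ≃ₐ[ℚ] σ.range).toLinearEquiv).symm
  rw [e1, e2]

omit [NumberField F] in
lemma card_aut_dvd [NumberField F] : Nat.card (F ≃ₐ[ℚ] F) ∣ Module.finrank ℚ F := by
  have h3 := IntermediateField.finrank_fixedField_eq_card (F := ℚ) (E := F) ⊤
  have h4 := Module.finrank_mul_finrank ℚ
    (IntermediateField.fixedField (⊤ : Subgroup (F ≃ₐ[ℚ] F))) F
  rw [h3] at h4
  have h5 : Nat.card (⊤ : Subgroup (F ≃ₐ[ℚ] F)) = Nat.card (F ≃ₐ[ℚ] F) := Subgroup.card_top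
  rw [h5] at h4
  exact Dvd.intro_left _ h4

lemma exists_move (hp : (Module.finrank ℚ F).Prime) (hng : ¬ IsGalois ℚ F) {σ τ : F →ₐ[ℚ] K}
    (hne : σ ≠ τ) :
    ∃ g : K ≃ₐ[ℚ] K, (g : K →ₐ[ℚ] K).comp σ = σ ∧ (g : K →ₐ[ℚ] K).comp τ ≠ τ := by
  by_contra hcon
  push Not at hcon
  obtain ⟨a, ha⟩ := exists_of_range_eq (range_eq (range_le hcon))
  have ha1 : a ≠ 1 := by
    rintro rfl
    apply hne
    rw [ha]
    apply AlgHom.ext
    intro t
    rfl
  apply hng
  refine IsGalois.of_card_aut_eq_finrank ℚ F ?_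
  rcases (Nat.dvd_prime hp).1 (card_aut_dvd (F := F)) with h | h
  · exfalso
    rw [Nat.card_eq_one_iff_unique] at h
    exact ha1 (h.1.elim _ _)
  · exact h

/-- **Cubic fields.** -/
theorem two_of_cubic (h3 : Module.finrank ℚ F = 3) (hng : ¬ IsGalois ℚ F) : Two F K := by
  intro σ τ σ' τ' h1 h2
  have hp : (Module.finrank ℚ F).Prime := by rw [h3]; norm_num
  have hFin : Fintype (F →ₐ[ℚ] K) := Fintype.ofFinite _
  have hcard : Fintype.card (F →ₐ[ℚ] K) = 3 := by
    rw [← Nat.card_eq_fintype_card, card_emb σ, h3]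
  obtain ⟨g, hg⟩ := Pool.Agent.Q11.CZ.exists_lift (K := K) σ σ'
  have hg' : (g : K →ₐ[ℚ] K).comp σ = σ' := hg
  by_cases h4 : (g : K →ₐ[ℚ] K).comp τ = τ'
  · exact ⟨g, hg', h4⟩
  set ρ := (g : K →ₐ[ℚ] K).comp τ with hρ
  have h5 : σ' ≠ ρ := by
    intro h
    apply h1
    rw [← hg', hρ] at h
    apply AlgHom.ext
    intro t
    have h6 := congrArg (fun f : F →ₐ[ℚ] K => f t) h
    exact g.injective h6
  obtain ⟨k, hk1, hk2⟩ := exists_move (K := K) hp hng h5
  refine ⟨k * g, ?_, ?_⟩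
  · have : ((k * g : K ≃ₐ[ℚ] K) : K →ₐ[ℚ] K).comp σ =
        (k : K →ₐ[ℚ] K).comp ((g : K →ₐ[ℚ] K).comp σ) := rfl
    rw [this, hg', hk1]
  · have : ((k * g : K ≃ₐ[ℚ] K) : K →ₐ[ℚ] K).comp τ = (k : K →ₐ[ℚ] K).comp ρ := rfl
    rw [this]
    by_contra h7
    set w := (k : K →ₐ[ℚ] K).comp ρ with hw
    have h8 : w ≠ σ' := by
      intro h
      apply h5
      rw [← hk1, hw] at h
      apply AlgHom.ext
      intro t
      have h9 := congrArg (fun f : F →ₐ[ℚ] K => f t) h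
      exact (k.injective h9).symm
    have h10 : ({σ', τ', ρ, w} : Finset (F →ₐ[ℚ] K)).card = 4 := by
      rw [Finset.card_insert_of_notMem, Finset.card_insert_of_notMem, Finset.card_pair]
      · exact fun h => hk2 h.symm
      · simp only [Finset.mem_insert, Finset.mem_singleton, not_or]
        exact ⟨fun h => h4 h.symm, fun h => h7 h.symm⟩
      · simp only [Finset.mem_insert, Finset.mem_singleton, not_or]
        exact ⟨h2, h5, h8.symm⟩
    have h11 := Finset.card_le_univ ({σ', τ', ρ, w} : Finset (F →ₐ[ℚ] K))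
    rw [h10, hcard] at h11
    omega

/-- **Sextic CM fields.** -/
theorem sextic {E : Type} [Field E] [NumberField E] [IsCMField E] [IsCMField K]
    (h6 : Module.finrank ℚ E = 6) {Φ : Finset (E →ₐ[ℚ] K)}
    (hΦ : IsCMType Φ) (ψ : E →ₐ[ℚ] K) : a0 ψ Φ ∈ avgSpan K ⊔ abSpan K := by
  have h3 : Module.finrank ℚ (maximalRealSubfield E) = 3 := by
    have := finrank_real (E := E)
    omega
  by_cases hG : IsGalois ℚ (maximalRealSubfield E)
  · exact prime_degree (by rw [h3]; norm_num) hΦ ψ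
  · refine Submodule.mem_sup_left (a0_main ⟨ψ⟩ (two_of_cubic h3 hG) (Or.inl ?_) hΦ ψ)
    rw [h3]
    decide

end Pool.Agent.V7H4.CT
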